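import Pool.Agent.LibMC2.G1
import Pool.Agent.LibBS2.D07
import Pool.Agent.LibBS2.D08
import Pool.Agent.LibBS2.B4b

/-!
G2. The shift operator `(T f)(v, ω) = f(t(e₀), ω₁ ω₂ ...)`.

PLAN. `exists_T` (D06) with `X := V`, `y v j := Γ.t (Γ.ch v j)`, `φ v j := id`; the hypothesis on
the cardinality: the map `(v, j) ↦ Γ.ch v j` is injective with values in the fibre of `t` over `z`, which
has at most `p` elements. Integrality: `T_int` (D08). Equivariance: both sides have the value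
`f (g⁻¹ • t (ch v j)) (act g⁻¹ (t (ch v j)) ω)` at `(v, cons j ω)`: use `ext_cons` (D05), `coc_apply`,
`act_cons`, `ch_smul`, `t_smul`, and `qmp_cons` (D05/N02) to transport a.e. statements along `cons j`
(see D09, which is the same computation). Norm: `q ‖T f‖² ≤ p ‖f‖²`.
-/

set_option autoImplicit false

namespace Pool.Agent.LibMC2

open MeasureTheory Pool.Agent.LibBS2
open scoped ENNReal

variable {G : Type} [Group G] {V B : Type} [MulAction G V] [MulAction G B] {q : ℕ} [NeZero q]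

/-- the coordinates of the translate -/
private theorem G2_op (D : Ext G V (Om q) (P q)) (g : G) (f : LX V (Om q) (P q)) (x : V) :
    ∀ᵐ ω ∂(P q), (D.coc.op g f x : Om q → ℂ) ω = f (g⁻¹ • x) (D.act g⁻¹ x ω) := by
  filter_upwards [D.coc_apply g x (f (g⁻¹ • x))] with ω h
  rw [VCoc.op_apply, h]

theorem exists_shift (Γ : OGraph G V B q) (p : ℕ)
    (hp : ∀ (z : V) (s : Finset B), (∀ e ∈ s, Γ.t e = z) → s.card ≤ p) :
    ∃ T : LX V (Om q) (P q) →+ LX V (Om q) (P q),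
      (∀ (f : LX V (Om q) (P q)) (v : V) (j : Fin q), ∀ᵐ ω ∂(P q),
        (T f v : Om q → ℂ) (cons j ω) = f (Γ.t (Γ.ch v j)) ω) ∧
      (∀ f : LX V (Om q) (P q), (q : ℝ) * ‖T f‖ ^ 2 ≤ p * ‖f‖ ^ 2) ∧
      (∀ f ∈ NN V (Om q) (P q), T f ∈ NN V (Om q) (P q)) ∧
      ∀ g f, T (Γ.ext.coc.op g f) = Γ.ext.coc.op g (T f) := by
  classical
  have hφ : ∀ (x : V) (j : Fin q), MeasurePreserving ((fun _ _ => id : V → Fin q → Om q → Om q) x j)
      (P q) (P q) := fun _ _ => MeasurePreserving.id _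
  obtain ⟨T, hT, hTn⟩ := exists_T (q := q) (p := p) (fun v j => Γ.t (Γ.ch v j))
    (fun _ _ => id : V → Fin q → Om q → Om q) hφ (by
      intro z s hs
      have hinj : Function.Injective fun b : V × Fin q => Γ.ch b.1 b.2 := by
        rintro ⟨v, j⟩ ⟨v', j'⟩ h
        have h1 := congrArg Γ.o h
        have h2 := congrArg Γ.idx h
        simp only [Γ.o_ch, Γ.idx_ch] at h1 h2
        rw [h1, h2]
      rw [← Finset.card_image_of_injective s hinj]
      refine hp z _ fun e he => ?_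
      obtain ⟨b, hb, rfl⟩ := Finset.mem_image.1 he
      exact hs b hb)
  refine ⟨T.toLinearMap.toAddMonoidHom, fun f v j => hT f v j, fun f => hTn f, ?_, ?_⟩
  · intro f hf x
    exact T_int hφ f (T f) (fun x j => hT f x j) hf x
  · intro g f
    change T (Γ.ext.coc.op g f) = Γ.ext.coc.op g (T f)
    ext v : 2
    refine ext_cons fun j => ?_
    have h1 := hT (Γ.ext.coc.op g f) v j
    have h2 := G2_op Γ.ext g f (Γ.t (Γ.ch v j))
    have h3 := (qmp_cons j).ae (G2_op Γ.ext g (T f) v)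
    have h4 := (Γ.ext.mp g⁻¹ (Γ.t (Γ.ch v j))).quasiMeasurePreserving.ae
      (hT f (g⁻¹ • v) (Γ.idx (g⁻¹ • Γ.ch v j)))
    filter_upwards [h1, h2, h3, h4] with ω e1 e2 e3 e4
    have e5 : Γ.ext.act g⁻¹ v (cons j ω) =
        cons (Γ.idx (g⁻¹ • Γ.ch v j)) (Γ.ext.act g⁻¹ (Γ.t (Γ.ch v j)) ω) := Γ.act_cons g⁻¹ v j ω
    have e6 : Γ.t (Γ.ch (g⁻¹ • v) (Γ.idx (g⁻¹ • Γ.ch v j))) = g⁻¹ • Γ.t (Γ.ch v j) := by
      rw [Γ.ch_smul, Γ.t_smul]
    rw [e1, e3, e5, e4]
    simp only [id]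
    rw [e2, e6]

end Pool.Agent.LibMC2
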