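import Pool.Agent.LibMC2.G1
import Pool.Agent.LibBS2.D05

/-!
G3. The map `κ : ℤ[B] → N`, `κ(e) =` the indicator function of the paths with first edge `e`.
-/

set_option autoImplicit false

namespace Pool.Agent.LibMC2

open MeasureTheory CategoryTheory Pool.Agent.LibBS2
open scoped ENNReal

variable {G : Type} [Group G] {V B : Type} [MulAction G V] [MulAction G B] {q : ℕ} [NeZero q]

theorem G3_meas (i : Fin q) : MeasurableSet {ω : Om q | ω 0 = i} :=
  (measurable_pi_apply 0 : Measurable fun ω : Om q => ω 0) (measurableSet_singleton i)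

/-- the indicator function of the sequences with first digit `i` -/
noncomputable def dg (i : Fin q) : Lp ℂ 2 (P q) :=
  indicatorConstLp 2 (G3_meas i) (measure_ne_top (P q) _) (1 : ℂ)

theorem dg_cons (i j : Fin q) : ∀ᵐ ω ∂(P q), (dg i : Om q → ℂ) (cons j ω) =
    if j = i then 1 else 0 := by
  have h1 : (dg i : Om q → ℂ) =ᵐ[P q] {ω : Om q | ω 0 = i}.indicator fun _ => (1 : ℂ) :=
    indicatorConstLp_coeFn
  have h2 := (qmp_cons j).ae h1
  filter_upwards [h2] with ω h3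
  rw [h3, Set.indicator_apply]
  rfl

open Classical in
/-- the linear map -/
noncomputable def kapL (Γ : OGraph G V B q) : MonoidAlgebra ℤ B →ₗ[ℤ] LX V (Om q) (P q) :=
  (Finsupp.linearCombination ℤ fun e : B =>
    (lp.single 2 (Γ.o e) (dg (Γ.idx e)) : LX V (Om q) (P q))) ∘ₗ
    (MonoidAlgebra.coeffLinearEquiv ℤ).toLinearMap

theorem kapL_cons (Γ : OGraph G V B q) (c : MonoidAlgebra ℤ B) (v : V) (j : Fin q) :
    ∀ᵐ ω ∂(P q), (kapL Γ c v : Om q → ℂ) (cons j ω) = ((c.coeff (Γ.ch v j) : ℤ) : ℂ) := by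
  classical
  induction c using MonoidAlgebra.induction_linear with
  | zero =>
    rw [map_zero]
    filter_upwards [(qmp_cons j).ae (Lp.coeFn_zero ℂ 2 (P q))] with ω h
    refine Eq.trans h ?_
    simp
  | add c d hc hd =>
    rw [map_add]
    filter_upwards [(qmp_cons j).ae (Lp.coeFn_add (kapL Γ c v) (kapL Γ d v)), hc, hd]
      with ω h1 h2 h3
    refine Eq.trans h1 ?_
    rw [Pi.add_apply, h2, h3, MonoidAlgebra.coeff_add, Finsupp.add_apply, Int.cast_add]
  | single e n =>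
    have h1 : kapL Γ (MonoidAlgebra.single e n) =
        n • (lp.single 2 (Γ.o e) (dg (Γ.idx e)) : LX V (Om q) (P q)) := by
      show Finsupp.linearCombination ℤ _ (Finsupp.single e n) = _
      rw [Finsupp.linearCombination_single]
    rw [h1, ← Int.cast_smul_eq_zsmul ℂ, MonoidAlgebra.coeff_single, Finsupp.single_apply]
    by_cases h : Γ.o e = v
    · subst h
      have h2 : (((n : ℂ) • (lp.single 2 (Γ.o e) (dg (Γ.idx e)) : LX V (Om q) (P q))) (Γ.o e) :
          Lp ℂ 2 (P q)) = (n : ℂ) • dg (Γ.idx e) := by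
        rw [lp.coeFn_smul, Pi.smul_apply, lp.single_apply_self]
      rw [h2]
      filter_upwards [(qmp_cons j).ae (Lp.coeFn_smul (n : ℂ) (dg (Γ.idx e))),
        dg_cons (Γ.idx e) j] with ω h3 h4
      refine Eq.trans h3 ?_
      rw [Pi.smul_apply, h4]
      by_cases h5 : j = Γ.idx e
      · subst h5
        rw [if_pos rfl, if_pos (Γ.ch_idx e).symm, smul_eq_mul, mul_one]
      · have h6 : ¬ e = Γ.ch (Γ.o e) j := fun h6 => h5 (by
          have h7 := congrArg Γ.idx h6
          rw [Γ.idx_ch] at h7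
          exact h7.symm)
        rw [if_neg h5, if_neg h6, smul_zero, Int.cast_zero]
    · have h2 : (((n : ℂ) • (lp.single 2 (Γ.o e) (dg (Γ.idx e)) : LX V (Om q) (P q))) v :
          Lp ℂ 2 (P q)) = 0 := by
        rw [lp.coeFn_smul, Pi.smul_apply, lp.single_apply_ne _ _ _ (Ne.symm h), smul_zero]
      rw [h2]
      have h6 : ¬ e = Γ.ch v j := fun h6 => h (by rw [h6, Γ.o_ch])
      filter_upwards [(qmp_cons j).ae (Lp.coeFn_zero ℂ 2 (P q))] with ω h3
      refine Eq.trans h3 ?_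
      rw [if_neg h6, Int.cast_zero]
      rfl

theorem kapL_mem (Γ : OGraph G V B q) (c : MonoidAlgebra ℤ B) :
    kapL Γ c ∈ NN V (Om q) (P q) := by
  intro v
  refine ae_of_cons fun j => ?_
  filter_upwards [kapL_cons Γ c v j] with ω h
  exact ⟨_, h⟩

theorem kapL_op (Γ : OGraph G V B q) (g : G) (c : MonoidAlgebra ℤ B) :
    kapL Γ (Representation.ofMulAction ℤ G B g c) = Γ.ext.coc.op g (kapL Γ c) := by
  refine lp.ext (funext fun v => ?_)
  refine ext_cons fun j => ?_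
  have h1 := kapL_cons Γ (Representation.ofMulAction ℤ G B g c) v j
  have h2 := (qmp_cons j).ae (Γ.ext.coc_apply g v (kapL Γ c (g⁻¹ • v)))
  have h3 := (Γ.act_mp g⁻¹ (Γ.t (Γ.ch v j))).quasiMeasurePreserving.ae
    (kapL_cons Γ c (g⁻¹ • v) (Γ.idx (g⁻¹ • Γ.ch v j)))
  filter_upwards [h1, h2, h3] with ω e1 e2 e3
  rw [e1]
  refine Eq.trans ?_ e2.symm
  show _ = (kapL Γ c (g⁻¹ • v) : Om q → ℂ) (Γ.act g⁻¹ v (cons j ω))
  rw [Γ.act_cons, e3, Γ.ch_smul, Representation.coeff_ofMulAction]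

theorem exists_kappa (Γ : OGraph G V B q) :
    ∃ κ : Rep.ofMulAction ℤ G B ⟶ Γ.ext.NRep,
      ∀ (c : MonoidAlgebra ℤ B) (v : V) (j : Fin q), ∀ᵐ ω ∂(P q),
        ((show NN V (Om q) (P q) from κ.hom c).1 v : Om q → ℂ) (cons j ω) =
          ((c.coeff (Γ.ch v j) : ℤ) : ℂ) := by
  refine ⟨Rep.ofHom ⟨(kapL Γ).codRestrict (NN V (Om q) (P q)) (kapL_mem Γ), fun g =>
    LinearMap.ext fun c => Subtype.ext (kapL_op Γ g c)⟩, fun c v j => kapL_cons Γ c v j⟩

end Pool.Agent.LibMC2
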