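import Mathlib

/-!
G4. Homology classes which are fixed up to sign by an endomorphism `T` such that `1 - T` and `1 + T`
are bijective.

PLAN. `groupHomology.map_id_comp` gives `map κ ∘ map φ = map ι`, `map κ ∘ map ψ = map T ∘ map ι`. If
`map φ u = ε map ψ u` then `w := map ι u` satisfies `w = ε map T w`. Show
`map (𝟙 - ε T) w = w - ε map T w = 0` (additivity of `groupHomology.map (MonoidHom.id G) · m`: on chains
`chainsMap` is `Finsupp.mapRange` by the linear map, `ext`/`HomologicalComplex.homologyMap_sub`; or
avoid it: every cycle representing `w`, ...). `𝟙 - ε T` is an isomorphism of representations (bijective), so `map` of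
it is injective and `w = 0`; `map ι` is injective, `u = 0`.
-/

set_option autoImplicit false

namespace Pool.Agent.LibMC2

open CategoryTheory

theorem G4_chains {k G : Type} [CommRing k] [Group G] {A B : Rep.{0} k G} (f g : A ⟶ B) :
    groupHomology.chainsMap (MonoidHom.id G) (f + g) =
      groupHomology.chainsMap (MonoidHom.id G) f + groupHomology.chainsMap (MonoidHom.id G) g := by
  ext n : 1
  apply ModuleCat.hom_ext
  refine Finsupp.lhom_ext fun x a => ?_
  change (groupHomology.chainsMap (MonoidHom.id G) (f + g)).f n (Finsupp.single x a) =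
    (groupHomology.chainsMap (MonoidHom.id G) f).f n (Finsupp.single x a) +
      (groupHomology.chainsMap (MonoidHom.id G) g).f n (Finsupp.single x a)
  rw [groupHomology.chainsMap_f_single, groupHomology.chainsMap_f_single,
    groupHomology.chainsMap_f_single, ← Finsupp.single_add]
  rfl

theorem G4_map {k G : Type} [CommRing k] [Group G] {A B : Rep.{0} k G} (f g : A ⟶ B) (m : ℕ) :
    (groupHomology.functor k G m).map (f + g) =
      (groupHomology.functor k G m).map f + (groupHomology.functor k G m).map g := by
  change HomologicalComplex.homologyMap (groupHomology.chainsMap (MonoidHom.id G) (f + g)) m =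
    HomologicalComplex.homologyMap (groupHomology.chainsMap (MonoidHom.id G) f) m +
      HomologicalComplex.homologyMap (groupHomology.chainsMap (MonoidHom.id G) g) m
  rw [G4_chains, HomologicalComplex.homologyMap_add]

theorem G4_inj {k G : Type} [CommRing k] [Group G] {N : Rep.{0} k G} (S : N ⟶ N)
    (h : Function.Bijective fun x : N => S.hom x) (m : ℕ) :
    Function.Injective ((groupHomology.functor k G m).map S).hom := by
  have hm : Mono S := (Rep.mono_iff_injective S).2 h.1
  have he : Epi S := (Rep.epi_iff_surjective S).2 h.2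
  have h1 : IsIso S := isIso_of_mono_of_epi S
  have h2 : IsIso ((groupHomology.functor k G m).map S) := inferInstance
  exact ((ConcreteCategory.isIso_iff_bijective _).1 h2).1

theorem class_zero {G : Type} [Group G] {A A' N : Rep.{0} ℤ G} (φ ψ : A ⟶ A') (κ : A' ⟶ N)
    (ι : A ⟶ N) (T : N ⟶ N) (h1 : φ ≫ κ = ι) (h2 : ψ ≫ κ = ι ≫ T)
    (hm : Function.Bijective fun x : N => x - T.hom x)
    (hp : Function.Bijective fun x : N => x + T.hom x) (m : ℕ)
    (hι : Function.Injective ((groupHomology.functor ℤ G m).map ι).hom)
    (u : groupHomology A m)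
    (hu : ((groupHomology.functor ℤ G m).map φ).hom u =
        ((groupHomology.functor ℤ G m).map ψ).hom u ∨
      ((groupHomology.functor ℤ G m).map φ).hom u =
        -((groupHomology.functor ℤ G m).map ψ).hom u) : u = 0 := by
  let F := groupHomology.functor ℤ G m
  have e1 : (F.map κ).hom ((F.map φ).hom u) = (F.map ι).hom u := by
    rw [← h1, F.map_comp]
    rfl
  have e2 : (F.map κ).hom ((F.map ψ).hom u) = (F.map T).hom ((F.map ι).hom u) := by
    have := congrArg (fun f => (F.map f).hom u) h2
    simp only [F.map_comp] at this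
    exact this
  suffices hw : (F.map ι).hom u = 0 from hι (hw.trans (map_zero (F.map ι).hom).symm)
  rcases hu with hu | hu
  · have hS : Function.Bijective fun x : N => (𝟙 N + (-T) : N ⟶ N).hom x := by
      have : (fun x : N => (𝟙 N + (-T) : N ⟶ N).hom x) = fun x : N => x - T.hom x := by
        funext x
        rw [sub_eq_add_neg]
        rfl
      rw [this]
      exact hm
    apply G4_inj _ hS m
    refine Eq.trans ?_ (map_zero (F.map (𝟙 N + (-T))).hom).symm
    rw [G4_map]
    have e3 : (F.map (-T)).hom ((F.map ι).hom u) = -(F.map T).hom ((F.map ι).hom u) := by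
      have e4 : F.map (T + -T) = F.map T + F.map (-T) := G4_map T (-T) m
      rw [add_neg_cancel] at e4
      have e5 : F.map (0 : N ⟶ N) = 0 := F.map_zero _ _
      rw [e5] at e4
      have e6 := congrArg (fun f => f.hom ((F.map ι).hom u)) e4
      have e7 : (0 : _) = (F.map T).hom ((F.map ι).hom u) +
        (F.map (-T)).hom ((F.map ι).hom u) := e6
      exact eq_neg_of_add_eq_zero_right e7.symm
    have e8 : (F.map (𝟙 N)).hom ((F.map ι).hom u) = (F.map ι).hom u := by
      rw [F.map_id]
      rfl
    change (F.map (𝟙 N)).hom ((F.map ι).hom u) + (F.map (-T)).hom ((F.map ι).hom u) = 0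
    rw [e3, e8, ← e2, ← e1]
    have e9 : (F.map φ).hom u = (F.map ψ).hom u := hu
    rw [e9, add_neg_cancel]
  · have hS : Function.Bijective fun x : N => (𝟙 N + T : N ⟶ N).hom x := hp
    apply G4_inj _ hS m
    refine Eq.trans ?_ (map_zero (F.map (𝟙 N + T)).hom).symm
    rw [G4_map]
    have e8 : (F.map (𝟙 N)).hom ((F.map ι).hom u) = (F.map ι).hom u := by
      rw [F.map_id]
      rfl
    change (F.map (𝟙 N)).hom ((F.map ι).hom u) + (F.map T).hom ((F.map ι).hom u) = 0
    rw [e8, ← e2, ← e1]
    have e9 : (F.map φ).hom u = -(F.map ψ).hom u := hu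
    rw [e9, map_neg, neg_add_cancel]

end Pool.Agent.LibMC2
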