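import Pool.Agent.LibMC2.M5
import Pool.Agent.LibMC2.G2
import Pool.Agent.LibMC2.G3
import Pool.Agent.LibMC2.G4

/-!
G5. The graph criterion.
-/

set_option autoImplicit false

namespace Pool.Agent.LibMC2

open MeasureTheory CategoryTheory Pool.Agent.LibZIS Pool.Agent.LibCod83 Pool.Agent.LibBS2
open scoped ENNReal

universe v

variable {G : Type} [Group G] {E : Type v} [TopologicalSpace E] [PathConnectedSpace E]
  [MulAction G E] [ContinuousConstSMul G E]

variable {V B : Type} [MulAction G V] [MulAction G B] {q : ℕ} [NeZero q]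

theorem bij_restrN {X Ω : Type} [MeasurableSpace Ω] {μ : Measure Ω} (S : LX X Ω μ →+ LX X Ω μ)
    (hS : ∀ f ∈ NN X Ω μ, S f ∈ NN X Ω μ) (r : ℝ) (hr0 : 0 ≤ r) (hr1 : r < 1)
    (hr : ∀ f, ‖S f‖ ≤ r * ‖f‖) :
    Function.Bijective fun x : NN X Ω μ => x - restrN S hS x := by
  refine ⟨fun x y hxy => ?_, fun y => ?_⟩
  · refine sub_eq_zero.1 (restrN_inj S hS r hr1 hr (x - y) ?_)
    have h1 : x - restrN S hS x = y - restrN S hS y := hxy
    rw [map_sub, sub_sub_sub_comm, h1, sub_self]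
  · have hcl : IsClosed (((NN X Ω μ).toAddSubgroup : AddSubgroup (LX X Ω μ)) :
        Set (LX X Ω μ)) := closed_int μ
    obtain ⟨b, hb⟩ := restrN_surj S hS r hr0 hr1 hr hcl y
    exact ⟨b, hb⟩

omit [MulAction G V] [MulAction G B] in
theorem iota_cons (c : MonoidAlgebra ℤ V) (v : V) (j : Fin q) : ∀ᵐ ω ∂(P q),
    (iotaL V (P q) c v : Om q → ℂ) (cons j ω) = ((c.coeff v : ℤ) : ℂ) := by
  have h1 : ∀ᵐ ω ∂(P q), (iotaL V (P q) c v : Om q → ℂ) ω = ((c.coeff v : ℤ) : ℂ) := by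
    rw [iotaL_apply]
    filter_upwards [Lp.coeFn_smul ((c.coeff v : ℤ) : ℂ) (one1 (P q)), one1_ae (μ := P q)]
      with ω h1 h2
    rw [h1, Pi.smul_apply, h2, smul_eq_mul, mul_one]
  exact (qmp_cons j).ae h1

/-- the case `p < q` with an enumeration of the outgoing edges -/
theorem graph_lt (hfree : ∀ (g : G) (e : E), g • e = e → g = 1) (hE : H1Zero E) (n : ℕ)
    (hn : 3 ≤ n) (hG : IsPD G n) (hst : ∀ x : V, Amenable (MulAction.stabilizer G x))
    (Γ : OGraph G V B q) (p : ℕ) (hpq : p < q)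
    (hp : ∀ (z : V) (s : Finset B), (∀ e ∈ s, Γ.t e = z) → s.card ≤ p)
    (H : Gap G E) (φ ψ : Rep.ofMulAction ℤ G V ⟶ Rep.ofMulAction ℤ G B)
    (hφ : ∀ (c : MonoidAlgebra ℤ V) (e : B),
      (φ.hom c : MonoidAlgebra ℤ B).coeff e = c.coeff (Γ.o e))
    (hψ : ∀ (c : MonoidAlgebra ℤ V) (e : B),
      (ψ.hom c : MonoidAlgebra ℤ B).coeff e = c.coeff (Γ.t e))
    (u : groupHomology (Rep.ofMulAction ℤ G V) (n - 3))
    (hu : ((groupHomology.functor ℤ G (n - 3)).map φ).hom u =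
        ((groupHomology.functor ℤ G (n - 3)).map ψ).hom u ∨
      ((groupHomology.functor ℤ G (n - 3)).map φ).hom u =
        -((groupHomology.functor ℤ G (n - 3)).map ψ).hom u) : u = 0 := by
  obtain ⟨T, hT, hTn, hTN, hTc⟩ := exists_shift Γ p hp
  obtain ⟨κ, hκ⟩ := exists_kappa Γ
  have hq0 : (0 : ℝ) < q := Nat.cast_pos.2 (Nat.pos_of_ne_zero (NeZero.ne q))
  -- the norm of the shift
  obtain ⟨r, hr0, hr1, hr⟩ : ∃ r : ℝ, 0 ≤ r ∧ r < 1 ∧ ∀ f, ‖T f‖ ≤ r * ‖f‖ := by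
    refine ⟨Real.sqrt (p / q), Real.sqrt_nonneg _, ?_, fun f => ?_⟩
    · rw [Real.sqrt_lt' one_pos, one_pow, div_lt_one hq0]
      exact_mod_cast hpq
    · refine le_of_sq_le_sq ?_ (by positivity)
      rw [mul_pow, Real.sq_sqrt (by positivity), div_mul_eq_mul_div, le_div_iff₀ hq0, mul_comm]
      exact hTn f
  -- the endomorphism of the module
  let TN : Γ.ext.NRep ⟶ Γ.ext.NRep :=
    Rep.ofHom ⟨(restrN T hTN).toIntLinearMap, fun g => LinearMap.ext fun f =>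
      Subtype.ext (hTc g f.1)⟩
  have hrn : ∀ f, ‖(-T) f‖ ≤ r * ‖f‖ := fun f => by
    rw [AddMonoidHom.neg_apply, norm_neg]
    exact hr f
  have hTNn : ∀ f ∈ NN V (Om q) (P q), (-T) f ∈ NN V (Om q) (P q) := fun f hf =>
    Submodule.neg_mem _ (hTN f hf)
  have e1 : ∀ (c : MonoidAlgebra ℤ V), κ.hom (φ.hom c) = Γ.ext.iota.hom c := by
    intro c
    apply Subtype.ext
    refine lp.ext (funext fun v => ?_)
    refine ext_cons fun j => ?_
    filter_upwards [hκ (φ.hom c) v j, iota_cons c v j] with ω b1 b2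
    refine b1.trans (Eq.trans ?_ b2.symm)
    rw [hφ, Γ.o_ch]
  have e2 : ∀ (c : MonoidAlgebra ℤ V), κ.hom (ψ.hom c) = TN.hom (Γ.ext.iota.hom c) := by
    intro c
    apply Subtype.ext
    refine lp.ext (funext fun v => ?_)
    refine ext_cons fun j => ?_
    have a3 : ∀ᵐ ω ∂(P q), (iotaL V (P q) c (Γ.t (Γ.ch v j)) : Om q → ℂ) ω =
        ((c.coeff (Γ.t (Γ.ch v j)) : ℤ) : ℂ) := by
      rw [iotaL_apply]
      filter_upwards [Lp.coeFn_smul ((c.coeff (Γ.t (Γ.ch v j)) : ℤ) : ℂ) (one1 (P q)),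
        one1_ae (μ := P q)] with ω h1 h2
      rw [h1, Pi.smul_apply, h2, smul_eq_mul, mul_one]
    filter_upwards [hκ (ψ.hom c) v j, hT (iotaL V (P q) c) v j, a3] with ω b1 b2 b3
    refine b1.trans (Eq.trans ?_ b2.symm)
    rw [b3, hψ]
  refine class_zero φ ψ κ Γ.ext.iota TN 
    (Rep.hom_ext (DFunLike.ext _ _ fun c => e1 c)) (Rep.hom_ext (DFunLike.ext _ _ fun c => e2 c)) ?_ ?_ _ ?_ u hu
  · exact bij_restrN T hTN r hr0 hr1 hr
  · have h1 := bij_restrN (-T) hTNn r hr0 hr1 hrn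
    have h2 : (fun x : NN V (Om q) (P q) => x - restrN (-T) hTNn x) =
        fun x : NN V (Om q) (P q) => x + restrN T hTN x := by
      funext x
      have h3 : restrN (-T) hTNn x = - restrN T hTN x := rfl
      rw [h3, sub_neg_eq_add]
    rw [h2] at h1
    exact h1
  · refine les_inj Γ.ext.iota Γ.ext.prQ (iota_inj _) (prQ_surj _) (prQ_iota _) (prQ_ker _) _ ?_
    have h1 := not_nontrivial_homology hG Γ.ext.QRep 2 (by omega)
      (coh_QRep hfree hE H hst Γ.ext 2 le_rfl)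
    have h2 : n - 3 + 1 = n - 2 := by omega
    rw [h2]
    exact h1


omit [NeZero q] in
/-- an enumeration of the outgoing edges -/
theorem exists_ograph (q : ℕ) (o t : B → V) (ho : ∀ (g : G) (e : B), o (g • e) = g • o e)
    (ht : ∀ (g : G) (e : B), t (g • e) = g • t e)
    (hq : ∀ v : V, (o ⁻¹' {v}).encard = q) :
    ∃ Γ : OGraph G V B q, Γ.o = o ∧ Γ.t = t := by
  have h1 : ∀ v : V, Nonempty (Fin q ≃ (o ⁻¹' {v} : Set B)) := fun v => by
    have hf : (o ⁻¹' {v} : Set B).Finite := Set.finite_of_encard_eq_coe (hq v)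
    have : Finite (o ⁻¹' {v} : Set B) := hf
    refine ⟨(Finite.equivFinOfCardEq ?_).symm⟩
    rw [Nat.card_coe_set_eq, Set.ncard, hq v]
    rfl
  let ε : ∀ v : V, Fin q ≃ (o ⁻¹' {v} : Set B) := fun v => (h1 v).some
  refine ⟨{ o := o, t := t, o_smul := ho, t_smul := ht
            ch := fun v i => (ε v i : B)
            idx := fun e => (ε (o e)).symm ⟨e, rfl⟩
            o_ch := fun v i => (ε v i).2
            idx_ch := fun v i => ?_
            ch_idx := fun e => ?_ }, rfl, rfl⟩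
  · have h2 : o (ε v i : B) = v := (ε v i).2
    have h3 : ∀ (w : V) (hw : o (ε v i : B) = w),
        (ε w).symm ⟨(ε v i : B), hw⟩ = (ε w).symm ⟨(ε v i : B), hw⟩ := fun _ _ => rfl
    have h4 : ∀ (w : V) (hw : w = v) (hx : o (ε v i : B) = w),
        (ε w).symm ⟨(ε v i : B), hx⟩ = i := by
      rintro w rfl hx
      exact (ε w).symm_apply_apply i
    exact h4 _ h2 rfl
  · exact congrArg Subtype.val ((ε (o e)).apply_symm_apply ⟨e, rfl⟩)

theorem card_le_of_encard {p : ℕ} {t : B → V} (hp : ∀ v : V, (t ⁻¹' {v}).encard = p) (z : V)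
    (s : Finset B) (hs : ∀ e ∈ s, t e = z) : s.card ≤ p := by
  have h1 : (s : Set B).encard ≤ (t ⁻¹' {z}).encard := Set.encard_le_encard fun e he => hs e he
  rw [hp, Set.encard_coe_eq_coe_finsetCard] at h1
  exact_mod_cast h1

/-- **The graph criterion.** -/
theorem main_graph (hfree : ∀ (g : G) (e : E), g • e = e → g = 1) (hE : H1Zero E) (n : ℕ)
    (hn : 3 ≤ n) (hG : IsPD G n) (hst : ∀ x : V, Amenable (MulAction.stabilizer G x))
    (o t : B → V) (ho : ∀ (g : G) (e : B), o (g • e) = g • o e)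
    (ht : ∀ (g : G) (e : B), t (g • e) = g • t e) (p q : ℕ) (hpq : p ≠ q)
    (hq : ∀ v : V, (o ⁻¹' {v}).encard = q) (hp : ∀ v : V, (t ⁻¹' {v}).encard = p)
    (φ ψ : Rep.ofMulAction ℤ G V ⟶ Rep.ofMulAction ℤ G B)
    (hφ : ∀ (c : MonoidAlgebra ℤ V) (e : B),
      (φ.hom c : MonoidAlgebra ℤ B).coeff e = c.coeff (o e))
    (hψ : ∀ (c : MonoidAlgebra ℤ V) (e : B),
      (ψ.hom c : MonoidAlgebra ℤ B).coeff e = c.coeff (t e))
    (u : groupHomology (Rep.ofMulAction ℤ G V) (n - 3)) (hu0 : u ≠ 0)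
    (hu : ((groupHomology.functor ℤ G (n - 3)).map φ).hom u =
        ((groupHomology.functor ℤ G (n - 3)).map ψ).hom u ∨
      ((groupHomology.functor ℤ G (n - 3)).map φ).hom u =
        -((groupHomology.functor ℤ G (n - 3)).map ψ).hom u) :
    ∃ i, i ≤ 2 ∧ Nontrivial (Hgy (lam G) E i) := by
  by_contra hcon
  have H := gap_of_not hcon
  rcases lt_or_gt_of_ne hpq with hlt | hlt
  · have : NeZero q := ⟨by omega⟩
    obtain ⟨Γ, rfl, rfl⟩ := exists_ograph q o t ho ht hq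
    exact hu0 (graph_lt hfree hE n hn hG hst Γ p hlt (card_le_of_encard hp) H φ ψ hφ hψ u hu)
  · have : NeZero p := ⟨by omega⟩
    obtain ⟨Γ, h1, h2⟩ := exists_ograph p t o ht ho hp
    subst h1 h2
    refine hu0 (graph_lt hfree hE n hn hG hst Γ q hlt (card_le_of_encard hq) H ψ φ hψ hφ u ?_)
    rcases hu with hu | hu
    · exact Or.inl hu.symm
    · exact Or.inr (by rw [hu, neg_neg])

end Pool.Agent.LibMC2
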