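import Mathlib

/-!
M4. Long exact sequences: vanishing of the terms, injectivity.
-/

set_option autoImplicit false

namespace Pool.Agent.LibMC2

open CategoryTheory

theorem ses' {k : Type} [CommRing k] {G : Type} [Group G] {A B C : Rep.{0} k G} (f : A ⟶ B)
    (p : B ⟶ C) (hf : Function.Injective f.hom) (hp : Function.Surjective p.hom)
    (w : f ≫ p = 0) (hex : ∀ b : B, p.hom b = 0 → ∃ a : A, f.hom a = b) :
    (ShortComplex.mk f p w).ShortExact where
  exact := (forget₂ (Rep.{0} k G) (ModuleCat k)).reflects_exact_of_faithful _ <|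
            (ShortComplex.moduleCat_exact_iff _).2 fun x hx => hex x hx
  mono_f := (Rep.mono_iff_injective _).2 hf
  epi_g := (Rep.epi_iff_surjective _).2 hp

/-- the short exact sequence. -/
theorem ses {G : Type} [Group G] {A B C : Rep.{0} ℤ G} (f : A ⟶ B) (p : B ⟶ C)
    (hf : Function.Injective f.hom) (hp : Function.Surjective p.hom)
    (hfp : ∀ a : A, p.hom (f.hom a) = 0) (hex : ∀ b : B, p.hom b = 0 → ∃ a : A, f.hom a = b) :
    ∃ w : f ≫ p = 0, (ShortComplex.mk f p w).ShortExact := by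
  have w : f ≫ p = 0 := by
    refine Rep.hom_ext (DFunLike.ext _ _ fun a => ?_)
    exact hfp a
  exact ⟨w, ses' f p hf hp w hex⟩

/-- `H^j(A) = H^j(C) = 0 ⟹ H^j(B) = 0`. -/
theorem les_mid {G : Type} [Group G] {A B C : Rep.{0} ℤ G} (f : A ⟶ B) (p : B ⟶ C)
    (hf : Function.Injective f.hom) (hp : Function.Surjective p.hom)
    (hfp : ∀ a : A, p.hom (f.hom a) = 0) (hex : ∀ b : B, p.hom b = 0 → ∃ a : A, f.hom a = b)
    (j : ℕ) (hA : ¬ Nontrivial (groupCohomology A j)) (hC : ¬ Nontrivial (groupCohomology C j)) :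
    ¬ Nontrivial (groupCohomology B j) := by
  obtain ⟨w, hS⟩ := ses f p hf hp hfp hex
  rw [not_nontrivial_iff_subsingleton] at hA hC ⊢
  have h := groupCohomology.mapShortComplex₂_exact hS j
  rw [ShortComplex.moduleCat_exact_iff] at h
  refine ⟨fun x y => ?_⟩
  have key : ∀ z : groupCohomology B j, z = 0 := fun z => by
    obtain ⟨a, ha⟩ := h z (hC.elim _ _)
    rw [← ha, hA.elim a 0]
    exact map_zero _
  rw [key x, key y]

/-- `H^j(B) = H^{j+1}(A) = 0 ⟹ H^j(C) = 0`. -/
theorem les_right {G : Type} [Group G] {A B C : Rep.{0} ℤ G} (f : A ⟶ B) (p : B ⟶ C)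
    (hf : Function.Injective f.hom) (hp : Function.Surjective p.hom)
    (hfp : ∀ a : A, p.hom (f.hom a) = 0) (hex : ∀ b : B, p.hom b = 0 → ∃ a : A, f.hom a = b)
    (j : ℕ) (hB : ¬ Nontrivial (groupCohomology B j))
    (hA : ¬ Nontrivial (groupCohomology A (j + 1))) :
    ¬ Nontrivial (groupCohomology C j) := by
  obtain ⟨w, hS⟩ := ses f p hf hp hfp hex
  rw [not_nontrivial_iff_subsingleton] at hA hB ⊢
  have h := groupCohomology.mapShortComplex₃_exact hS (i := j) (j := j + 1) rfl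
  rw [ShortComplex.moduleCat_exact_iff] at h
  refine ⟨fun x y => ?_⟩
  have key : ∀ z : groupCohomology C j, z = 0 := fun z => by
    obtain ⟨a, ha⟩ := h z (hA.elim _ _)
    rw [← ha, (hB.elim a 0 : a = 0)]
    exact map_zero _
  rw [key x, key y]

/-- `H_{j+1}(C) = 0 ⟹ H_j(A) → H_j(B)` is injective. -/
theorem les_inj {G : Type} [Group G] {A B C : Rep.{0} ℤ G} (f : A ⟶ B) (p : B ⟶ C)
    (hf : Function.Injective f.hom) (hp : Function.Surjective p.hom)
    (hfp : ∀ a : A, p.hom (f.hom a) = 0) (hex : ∀ b : B, p.hom b = 0 → ∃ a : A, f.hom a = b)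
    (j : ℕ) (hC : ¬ Nontrivial (groupHomology C (j + 1))) :
    Function.Injective ((groupHomology.functor ℤ G j).map f).hom := by
  obtain ⟨w, hS⟩ := ses f p hf hp hfp hex
  rw [not_nontrivial_iff_subsingleton] at hC
  have h := groupHomology.mapShortComplex₁_exact hS (i := j + 1) (j := j) rfl
  rw [ShortComplex.moduleCat_exact_iff] at h
  rw [injective_iff_map_eq_zero]
  intro z hz
  obtain ⟨a, ha⟩ := h z hz
  rw [← ha, (hC.elim a 0 : a = 0)]
  exact map_zero _

end Pool.Agent.LibMC2
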