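import Mathlib

/-!
Elementary amenable groups: one-sided extensions are enough (Chou).
-/

set_option autoImplicit false

namespace Pool.Agent.LibMC2

/-- Elementary amenable groups: the smallest class of groups containing the finite and the
abelian groups and closed under extensions, directed unions, subgroups, quotients and
isomorphisms. -/
inductive EA : ∀ (G : Type) [Group G], Prop
  | finite (G : Type) [Group G] (h : Finite G) : EA G
  | comm (G : Type) [Group G] (h : ∀ a b : G, a * b = b * a) : EA G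
  | ext (G : Type) [Group G] (N : Subgroup G) [N.Normal] (hN : EA N) (hQ : EA (G ⧸ N)) : EA G
  | union (G : Type) [Group G] (ι : Type) [Nonempty ι] (K : ι → Subgroup G)
      (hdir : Directed (· ≤ ·) K) (hcov : ∀ g : G, ∃ i, g ∈ K i) (hK : ∀ i, EA (K i)) : EA G
  | subgroup (G : Type) [Group G] (H : Subgroup G) (hG : EA G) : EA H
  | quotient (G : Type) [Group G] (N : Subgroup G) [N.Normal] (hG : EA G) : EA (G ⧸ N)
  | iso (G H : Type) [Group G] [Group H] (e : G ≃* H) (hG : EA G) : EA H

theorem finiteIndex_comap {H G : Type} [Group H] [Group G] (f : H →* G) (N : Subgroup G)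
    (hN : N.FiniteIndex) : (N.comap f).FiniteIndex := by
  rw [Subgroup.finiteIndex_iff, Subgroup.index_comap]
  exact (Subgroup.isFiniteRelIndex_of_finiteIndex (H := N) (K := f.range)).relIndex_ne_zero

theorem finiteIndex_map {H G : Type} [Group H] [Group G] (f : G →* H)
    (hf : Function.Surjective f) (N : Subgroup G) (hN : N.FiniteIndex) :
    (N.map f).FiniteIndex := by
  rw [Subgroup.finiteIndex_iff]
  exact fun h => hN.index_ne_zero (Nat.eq_zero_of_zero_dvd (h ▸ Subgroup.index_map_dvd N hf))

/-- the class built with one-sided extensions and directed unions only -/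
inductive EB : (G : Type) → [Group G] → Prop
  | triv (G : Type) [Group G] (h : ∀ g : G, g = 1) : EB G
  | comm (G : Type) [Group G] (N : Subgroup G) (hN : ∀ x y : G, x * y * x⁻¹ * y⁻¹ ∈ N)
      (h : EB N) : EB G
  | fin (G : Type) [Group G] (N : Subgroup G) (hn : N.Normal) (hN : N.FiniteIndex)
      (h : EB N) : EB G
  | union (G : Type) [Group G] (S : Set (Subgroup G)) (hS : S.Nonempty)
      (hd : DirectedOn (· ≤ ·) S) (hu : ∀ g : G, ∃ H ∈ S, g ∈ H)
      (h : ∀ H ∈ S, EB H) : EB G

/-- restriction of a homomorphism to preimages -/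
def comapHom {H G : Type} [Group H] [Group G] (f : H →* G) (N : Subgroup G) :
    (N.comap f : Subgroup H) →* N where
  toFun x := ⟨f x.1, x.2⟩
  map_one' := Subtype.ext (map_one f)
  map_mul' x y := Subtype.ext (map_mul f x.1 y.1)

theorem directed_comap {H G : Type} [Group H] [Group G] (f : H →* G) {S : Set (Subgroup G)}
    (hd : DirectedOn (· ≤ ·) S) :
    DirectedOn (· ≤ ·) ((fun K : Subgroup G => K.comap f) '' S) := by
  rintro _ ⟨A, hA, rfl⟩ _ ⟨B, hB, rfl⟩
  obtain ⟨C, hC, h1, h2⟩ := hd A hA B hB
  exact ⟨_, ⟨C, hC, rfl⟩, Subgroup.comap_mono h1, Subgroup.comap_mono h2⟩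

theorem EB.inj {G : Type} [Group G] (h : EB G) : ∀ (H : Type) [Group H] (f : H →* G),
    Function.Injective f → EB H := by
  induction h with
  | triv G h =>
    intro H _ f hf
    exact EB.triv H fun g => hf (by rw [h (f g), map_one])
  | comm G N hN h ih =>
    intro H _ f hf
    refine EB.comm H (N.comap f) (fun x y => ?_) (ih _ (comapHom f N) fun x y h => ?_)
    · rw [Subgroup.mem_comap]
      simpa using hN (f x) (f y)
    · exact Subtype.ext (hf (congrArg Subtype.val h))
  | fin G N hn hN h ih =>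
    intro H _ f hf
    refine EB.fin H (N.comap f) (hn.comap f) (finiteIndex_comap f N hN)
      (ih _ (comapHom f N) fun x y h => ?_)
    exact Subtype.ext (hf (congrArg Subtype.val h))
  | union G S hS hd hu h ih =>
    intro H _ f hf
    refine EB.union H ((fun K : Subgroup G => K.comap f) '' S) (hS.image _)
      (directed_comap f hd) (fun g => ?_) ?_
    · obtain ⟨K, hK, hg⟩ := hu (f g)
      exact ⟨_, ⟨K, hK, rfl⟩, hg⟩
    · rintro _ ⟨K, hK, rfl⟩
      exact ih K hK _ (comapHom f K) fun x y h => Subtype.ext (hf (congrArg Subtype.val h))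

/-- restriction of a homomorphism to a subgroup and its image -/
def mapHom {H G : Type} [Group H] [Group G] (f : H →* G) (N : Subgroup H) :
    N →* (N.map f : Subgroup G) where
  toFun x := ⟨f x.1, x.1, x.2, rfl⟩
  map_one' := Subtype.ext (map_one f)
  map_mul' x y := Subtype.ext (map_mul f x.1 y.1)

theorem mapHom_surj {H G : Type} [Group H] [Group G] (f : H →* G) (N : Subgroup H) :
    Function.Surjective (mapHom f N) := by
  rintro ⟨_, x, hx, rfl⟩
  exact ⟨⟨x, hx⟩, rfl⟩

theorem EB.surj {G : Type} [Group G] (h : EB G) : ∀ (H : Type) [Group H] (f : G →* H),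
    Function.Surjective f → EB H := by
  induction h with
  | triv G h =>
    intro H _ f hf
    refine EB.triv H fun g => ?_
    obtain ⟨x, rfl⟩ := hf g
    rw [h x, map_one]
  | comm G N hN h ih =>
    intro H _ f hf
    refine EB.comm H (N.map f) (fun x y => ?_) (ih _ (mapHom f N) (mapHom_surj f N))
    obtain ⟨x, rfl⟩ := hf x
    obtain ⟨y, rfl⟩ := hf y
    exact ⟨_, hN x y, by simp⟩
  | fin G N hn hN h ih =>
    intro H _ f hf
    exact EB.fin H (N.map f) (hn.map f hf) (finiteIndex_map f hf N hN)
      (ih _ (mapHom f N) (mapHom_surj f N))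
  | union G S hS hd hu h ih =>
    intro H _ f hf
    refine EB.union H ((fun K : Subgroup G => K.map f) '' S) (hS.image _) ?_ (fun g => ?_) ?_
    · rintro _ ⟨A, hA, rfl⟩ _ ⟨B, hB, rfl⟩
      obtain ⟨C, hC, h1, h2⟩ := hd A hA B hB
      exact ⟨_, ⟨C, hC, rfl⟩, Subgroup.map_mono h1, Subgroup.map_mono h2⟩
    · obtain ⟨x, rfl⟩ := hf g
      obtain ⟨K, hK, hg⟩ := hu x
      exact ⟨_, ⟨K, hK, rfl⟩, x, hg, rfl⟩
    · rintro _ ⟨K, hK, rfl⟩
      exact ih K hK _ (mapHom f K) (mapHom_surj f K)

/-- the kernel of the restriction to a preimage -/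
def kerHom {H G : Type} [Group H] [Group G] (f : H →* G) (N : Subgroup G) :
    (comapHom f N).ker →* f.ker where
  toFun x := ⟨x.1.1, congrArg Subtype.val x.2⟩
  map_one' := rfl
  map_mul' _ _ := rfl

theorem kerHom_inj {H G : Type} [Group H] [Group G] (f : H →* G) (N : Subgroup G) :
    Function.Injective (kerHom f N) := fun x y h => by
  have h1 := congrArg Subtype.val h
  exact Subtype.ext (Subtype.ext h1)

theorem EB.ext {Q : Type} [Group Q] (h : EB Q) : ∀ (G : Type) [Group G] (f : G →* Q),
    EB f.ker → EB G := by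
  induction h with
  | triv Q h =>
    intro G _ f hk
    refine hk.surj G f.ker.subtype fun g => ⟨⟨g, ?_⟩, rfl⟩
    exact h _
  | comm Q N hN h ih =>
    intro G _ f hk
    refine EB.comm G (N.comap f) (fun x y => ?_) (ih _ (comapHom f N)
      (hk.inj _ (kerHom f N) (kerHom_inj f N)))
    rw [Subgroup.mem_comap]
    simpa using hN (f x) (f y)
  | fin Q N hn hN h ih =>
    intro G _ f hk
    exact EB.fin G (N.comap f) (hn.comap f) (finiteIndex_comap f N hN) (ih _ (comapHom f N)
      (hk.inj _ (kerHom f N) (kerHom_inj f N)))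
  | union Q S hS hd hu h ih =>
    intro G _ f hk
    refine EB.union G ((fun K : Subgroup Q => K.comap f) '' S) (hS.image _)
      (directed_comap f hd) (fun g => ?_) ?_
    · obtain ⟨K, hK, hg⟩ := hu (f g)
      exact ⟨_, ⟨K, hK, rfl⟩, hg⟩
    · rintro _ ⟨K, hK, rfl⟩
      exact ih K hK _ (comapHom f K) (hk.inj _ (kerHom f K) (kerHom_inj f K))

/-- Chou's theorem: one-sided extensions are enough -/
theorem EA.eb {G : Type} [Group G] (h : EA G) : EB G := by
  induction h with
  | finite G h =>
    exact EB.fin G ⊥ inferInstance inferInstance (EB.triv _ fun g => Subsingleton.elim _ _)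
  | comm G h =>
    refine EB.comm G ⊥ (fun x y => ?_) (EB.triv _ fun g => Subsingleton.elim _ _)
    rw [h x y]
    simp
  | ext G N hN hQ ih1 ih2 =>
    refine ih2.ext G (QuotientGroup.mk' N) ?_
    rw [QuotientGroup.ker_mk']
    exact ih1
  | union G ι K hdir hcov hK ih =>
    refine EB.union G (Set.range K) (Set.range_nonempty K) ?_ (fun g => ?_) ?_
    · rintro _ ⟨i, rfl⟩ _ ⟨j, rfl⟩
      obtain ⟨k, h1, h2⟩ := hdir i j
      exact ⟨_, ⟨k, rfl⟩, h1, h2⟩
    · obtain ⟨i, hi⟩ := hcov g
      exact ⟨_, ⟨i, rfl⟩, hi⟩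
    · rintro _ ⟨i, rfl⟩
      exact ih i
  | subgroup G H hG ih => exact ih.inj H H.subtype H.subtype_injective
  | quotient G N hG ih => exact ih.surj _ (QuotientGroup.mk' N) (QuotientGroup.mk'_surjective N)
  | iso G H e hG ih => exact ih.surj H e.toMonoidHom e.surjective

end Pool.Agent.LibMC2
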