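import Pool.Agent.LibMC2.EA1

/-!
EA2. Elementary amenable torsion-free subgroups are locally cyclic if the solvable ones are.

PLAN. Induction over `EB H`.
* triv: `z = 1`.
* comm: `N` is locally cyclic (ih for `φ.comp N.subtype`, torsion-free restricts), hence commutative; all
  commutators of `H` lie in `N`, so `H` is metabelian: `Group.IsSolvable H` (e.g.
  `solvable_of_ker_le_range` for `N.subtype` and `QuotientGroup.mk' N`; `N` is normal because it contains
  the commutators), so `φ.range` is solvable: `solvable_of_surjective` for `φ.rangeRestrict`; apply `hs`.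
* fin: `N` locally cyclic (ih), commutative. (a) `N` is central: let `h : H`, `n ∈ N`, `h ≠ 1`. There is `k > 0`
  with `c := h ^ k ∈ N` (`Subgroup.exists_pow_mem_of_index_ne_zero`), `c ≠ 1` (torsion-free). `n = z ^ i`,
  `c = z ^ j` with `z ∈ N`, `j ≠ 0`. With `σ n := h n h⁻¹ ∈ N`: `(σ n)^j = σ(c^i) = c^i = n^j`, so
  `(σ n * n⁻¹)^j = 1`, `σ n = n`. (b) `N ≤ center H`, so the center has finite index and commutators
  depend only on the cosets of the center: `commutatorSet H` is finite (image of `(H ⧸ center H)²`;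
  maybe already in Mathlib), Schur: `commutator H` is finite (Schreier.lean:
  `card_commutator_le_of_finite_commutatorSet`, instance), torsion-free, so trivial: `H` is commutative,
  hence solvable; `hs` again.
* union: `x, y` lie in one member of the directed family; ih for `φ.comp K.subtype`.
-/

set_option autoImplicit false

namespace Pool.Agent.LibMC2

open scoped commutatorElement

theorem EA2_comm {N : Type} [Group N]
    (h : ∀ x y : N, ∃ z : N, x ∈ Subgroup.zpowers z ∧ y ∈ Subgroup.zpowers z) (a b : N) :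
    a * b = b * a := by
  obtain ⟨z, ⟨i, rfl⟩, ⟨j, rfl⟩⟩ := h a b
  exact zpow_mul_comm z i j

theorem EA2_of_solv {G : Type} [Group G]
    (hs : ∀ S : Subgroup G, Group.IsSolvable S → (∀ s ∈ S, ∀ n : ℤ, n ≠ 0 → s ^ n = 1 → s = 1) →
      ∀ x ∈ S, ∀ y ∈ S, ∃ z ∈ S, x ∈ Subgroup.zpowers z ∧ y ∈ Subgroup.zpowers z)
    {H : Type} [Group H] (hH : Group.IsSolvable H) (φ : H →* G) (hφ : Function.Injective φ)
    (ht : ∀ h : H, ∀ n : ℤ, n ≠ 0 → h ^ n = 1 → h = 1) (x y : H) :
    ∃ z : H, x ∈ Subgroup.zpowers z ∧ y ∈ Subgroup.zpowers z := by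
  have h1 : Group.IsSolvable φ.range := Group.isSolvable_of_surjective φ.rangeRestrict_surjective
  have h2 : ∀ s ∈ φ.range, ∀ n : ℤ, n ≠ 0 → s ^ n = 1 → s = 1 := by
    rintro _ ⟨h, rfl⟩ n hn he
    have h3 : h ^ n = 1 := hφ (by rw [map_zpow, he, map_one])
    rw [ht h n hn h3, map_one]
  obtain ⟨_, ⟨z, rfl⟩, ⟨i, hi⟩, ⟨j, hj⟩⟩ := hs φ.range h1 h2 (φ x) ⟨x, rfl⟩ (φ y) ⟨y, rfl⟩
  refine ⟨z, ⟨i, hφ ?_⟩, ⟨j, hφ ?_⟩⟩
  · exact (map_zpow φ z i).trans hi
  · exact (map_zpow φ z j).trans hj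

/-- metabelian groups are solvable -/
theorem EA2_metab {H : Type} [Group H] (N : Subgroup H) (hN : ∀ x y : H, x * y * x⁻¹ * y⁻¹ ∈ N)
    (hc : ∀ a b : N, a * b = b * a) : Group.IsSolvable H := by
  have hn : N.Normal := by
    refine ⟨fun n hn g => ?_⟩
    have h1 := N.mul_mem (hN g n) hn
    simpa using h1
  have h1 : Group.IsSolvable N := Group.isSolvable_of_comm hc
  have h2 : Group.IsSolvable (H ⧸ N) := by
    refine Group.isSolvable_of_comm fun a b => ?_
    obtain ⟨a, rfl⟩ := QuotientGroup.mk_surjective a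
    obtain ⟨b, rfl⟩ := QuotientGroup.mk_surjective b
    rw [← QuotientGroup.mk_mul, ← QuotientGroup.mk_mul, QuotientGroup.eq]
    have h3 := hN b⁻¹ a⁻¹
    simpa [mul_assoc] using h3
  refine Group.isSolvable_of_ker_le_range N.subtype (QuotientGroup.mk' N) ?_
  rw [QuotientGroup.ker_mk', Subgroup.range_subtype]

/-- Schur: torsion-free groups with a central subgroup of finite index are commutative -/
theorem EA2_schur {H : Type} [Group H] (N : Subgroup H) (hN : N.FiniteIndex)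
    (hc : N ≤ Subgroup.center H) (ht : ∀ h : H, ∀ n : ℤ, n ≠ 0 → h ^ n = 1 → h = 1) (a b : H) :
    a * b = b * a := by
  have h1 : (Subgroup.center H).FiniteIndex := Subgroup.finiteIndex_of_le hc
  have h2 : Finite (H ⧸ Subgroup.center H) := Subgroup.finite_quotient_of_finiteIndex
  have h3 : Finite (commutatorSet H) := by
    let f : (H ⧸ Subgroup.center H) × (H ⧸ Subgroup.center H) → H :=
      fun p => ⁅p.1.out, p.2.out⁆
    refine (Set.finite_range f).subset ?_
    rintro _ ⟨g₁, g₂, rfl⟩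
    obtain ⟨z₁, hz₁⟩ := QuotientGroup.mk_out_eq_mul (Subgroup.center H) g₁
    obtain ⟨z₂, hz₂⟩ := QuotientGroup.mk_out_eq_mul (Subgroup.center H) g₂
    refine ⟨(g₁, g₂), ?_⟩
    change ⁅(g₁ : H ⧸ Subgroup.center H).out, (g₂ : H ⧸ Subgroup.center H).out⁆ = ⁅g₁, g₂⁆
    rw [hz₁, hz₂]
    have c₁ : ∀ x : H, (z₁ : H) * x = x * z₁ := fun x =>
      ((Subgroup.mem_center_iff.1 z₁.2) x).symm
    have c₂ : ∀ x : H, (z₂ : H) * x = x * z₂ := fun x =>
      ((Subgroup.mem_center_iff.1 z₂.2) x).symm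
    rw [commutatorElement_def, commutatorElement_def, mul_inv_rev, mul_inv_rev]
    calc g₁ * z₁ * (g₂ * z₂) * ((z₁ : H)⁻¹ * g₁⁻¹) * ((z₂ : H)⁻¹ * g₂⁻¹)
        = g₁ * (z₁ * g₂) * z₂ * ((z₁ : H)⁻¹ * g₁⁻¹) * ((z₂ : H)⁻¹ * g₂⁻¹) := by group
      _ = g₁ * g₂ * (z₁ * z₂) * (z₁ : H)⁻¹ * g₁⁻¹ * (z₂ : H)⁻¹ * g₂⁻¹ := by
          rw [c₁ g₂]; group
      _ = g₁ * g₂ * (z₂ * g₁⁻¹) * (z₂ : H)⁻¹ * g₂⁻¹ := by
          rw [c₁ z₂]; group
      _ = g₁ * g₂ * g₁⁻¹ * g₂⁻¹ := by
          rw [c₂ g₁⁻¹]; group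
  have h4 : Finite (commutator H) := inferInstance
  have h5 : ∀ c : commutator H, c = 1 := by
    intro c
    obtain ⟨n, hn, hc⟩ := (isOfFinOrder_of_finite c).exists_pow_eq_one
    apply Subtype.ext
    refine ht c n (by exact_mod_cast hn.ne') ?_
    rw [zpow_natCast]
    exact congrArg Subtype.val hc
  have h6 : ⁅a, b⁆ ∈ commutator H :=
    Subgroup.commutator_mem_commutator (Subgroup.mem_top a) (Subgroup.mem_top b)
  have h7 : ⁅a, b⁆ = 1 := congrArg Subtype.val (h5 ⟨_, h6⟩)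
  exact commutatorElement_eq_one_iff_mul_comm.1 h7

theorem ea_locally_cyclic {G : Type} [Group G]
    (hs : ∀ S : Subgroup G, Group.IsSolvable S → (∀ s ∈ S, ∀ n : ℤ, n ≠ 0 → s ^ n = 1 → s = 1) →
      ∀ x ∈ S, ∀ y ∈ S, ∃ z ∈ S, x ∈ Subgroup.zpowers z ∧ y ∈ Subgroup.zpowers z)
    {H : Type} [Group H] (hH : EB H) : ∀ φ : H →* G, Function.Injective φ →
      (∀ h : H, ∀ n : ℤ, n ≠ 0 → h ^ n = 1 → h = 1) →
      ∀ x y : H, ∃ z : H, x ∈ Subgroup.zpowers z ∧ y ∈ Subgroup.zpowers z := by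
  induction hH with
  | triv H h =>
    intro φ _ _ x y
    exact ⟨1, by rw [h x]; exact Subgroup.one_mem _, by rw [h y]; exact Subgroup.one_mem _⟩
  | comm H N hN _ ih =>
    intro φ hφ ht x y
    have h1 := ih (φ.comp N.subtype) (hφ.comp N.subtype_injective) fun h n hn he =>
      Subtype.ext (ht h n hn (congrArg Subtype.val he))
    exact EA2_of_solv hs (EA2_metab N hN (EA2_comm h1)) φ hφ ht x y
  | fin H N hn hN _ ih =>
    intro φ hφ ht x y
    have h1 := ih (φ.comp N.subtype) (hφ.comp N.subtype_injective) fun h n hn he =>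
      Subtype.ext (ht h n hn (congrArg Subtype.val he))
    have hcen : N ≤ Subgroup.center H := by
      intro n hnN
      rw [Subgroup.mem_center_iff]
      intro h
      by_cases h0 : h = 1
      · rw [h0, one_mul, mul_one]
      · obtain ⟨k, hk, _, hkN⟩ := Subgroup.exists_pow_mem_of_index_ne_zero hN.index_ne_zero h
        obtain ⟨z, ⟨i, hi⟩, ⟨j, hj⟩⟩ := h1 ⟨n, hnN⟩ ⟨h ^ k, hkN⟩
        have hi' : (z : H) ^ i = n := congrArg Subtype.val hi
        have hj' : (z : H) ^ j = h ^ k := congrArg Subtype.val hj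
        have hj0 : j ≠ 0 := by
          rintro rfl
          apply h0
          refine ht h k (by exact_mod_cast hk.ne') ?_
          rw [zpow_natCast, ← hj', zpow_zero]
        -- the conjugate of `n`
        have hσN : h * n * h⁻¹ ∈ N := hn.conj_mem n hnN h
        have hpow : (h * n * h⁻¹) ^ j = n ^ j := by
          rw [conj_zpow, ← hi', ← zpow_mul, mul_comm i j, zpow_mul, hj']
          rw [← zpow_natCast h k, ← zpow_mul, ← zpow_one_add, ← zpow_sub_one]
          congr 1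
          ring
        have hcomm : (h * n * h⁻¹) * n⁻¹ = n⁻¹ * (h * n * h⁻¹) :=
          congrArg Subtype.val (EA2_comm h1 ⟨h * n * h⁻¹, hσN⟩ (⟨n, hnN⟩⁻¹))
        have h2 : ((h * n * h⁻¹) * n⁻¹) ^ j = 1 := by
          rw [Commute.mul_zpow hcomm, hpow, inv_zpow, mul_inv_cancel]
        have h3 := ht _ j hj0 h2
        have h4 : h * n * h⁻¹ = n := by
          rw [mul_inv_eq_one] at h3
          exact h3
        rw [mul_inv_eq_iff_eq_mul] at h4
        exact h4
    exact EA2_of_solv hs (Group.isSolvable_of_comm (EA2_schur N hN hcen ht)) φ hφ ht x y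
  | union H S hS hd hu _ ih =>
    intro φ hφ ht x y
    obtain ⟨A, hA, hx⟩ := hu x
    obtain ⟨B, hB, hy⟩ := hu y
    obtain ⟨C, hC, h1, h2⟩ := hd A hA B hB
    obtain ⟨z, ⟨i, hi⟩, ⟨j, hj⟩⟩ := ih C hC (φ.comp C.subtype) (hφ.comp C.subtype_injective)
      (fun h n hn he => Subtype.ext (ht h n hn (congrArg Subtype.val he)))
      ⟨x, h1 hx⟩ ⟨y, h2 hy⟩
    exact ⟨z, ⟨i, congrArg Subtype.val hi⟩, ⟨j, congrArg Subtype.val hj⟩⟩

end Pool.Agent.LibMC2
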