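import Pool.Agent.LibMC2.G5
import Pool.Agent.LibMC2.EA2
import Pool.Agent.LibBS2.FinC2

/-!
Torsion-free elementary amenable subgroups of four-dimensional Poincaré duality groups.
-/

set_option autoImplicit false

namespace Pool.Agent.LibMC2

open Pool.Agent.LibZIS Pool.Agent.LibCod83 Pool.Agent.LibBS2

universe v

variable {G : Type} [Group G] {E : Type v} [TopologicalSpace E] [PathConnectedSpace E]
  [MulAction G E] [ContinuousConstSMul G E]

theorem main_ea (hfree : ∀ (g : G) (e : E), g • e = e → g = 1) (hE : H1Zero E)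
    (hG : IsPD G 4) (S : Subgroup G) (hS : EA S)
    (htf : ∀ s ∈ S, ∀ n : ℤ, n ≠ 0 → s ^ n = 1 → s = 1)
    (hn : ¬ ∀ x ∈ S, ∀ y ∈ S, ∃ z ∈ S, x ∈ Subgroup.zpowers z ∧ y ∈ Subgroup.zpowers z) :
    ∃ i, i ≤ 2 ∧ Nontrivial (Hgy (lam G) E i) := by
  by_contra hcon
  refine hn fun x hx y hy => ?_
  obtain ⟨z, h1, h2⟩ := ea_locally_cyclic (fun S' h1 h2 => by
    by_contra h3
    exact hcon (main_solvable hfree hE hG S' h1 h2 h3)) hS.eb S.subtype S.subtype_injective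
    (fun h n hn0 h1 => Subtype.ext (htf h.1 h.2 n hn0 (by
      have h2 := congrArg Subtype.val h1
      simpa using h2))) ⟨x, hx⟩ ⟨y, hy⟩
  refine ⟨z.1, z.2, ?_, ?_⟩
  · obtain ⟨k, hk⟩ := Subgroup.mem_zpowers_iff.1 h1
    exact Subgroup.mem_zpowers_iff.2 ⟨k, by simpa using congrArg Subtype.val hk⟩
  · obtain ⟨k, hk⟩ := Subgroup.mem_zpowers_iff.1 h2
    exact Subgroup.mem_zpowers_iff.2 ⟨k, by simpa using congrArg Subtype.val hk⟩

end Pool.Agent.LibMC2
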