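import Pool.Agent.LibMC2.GDefs

/-!
G1. The space of paths is a measured extension.
-/

set_option autoImplicit false

namespace Pool.Agent.LibMC2

open MeasureTheory Pool.Agent.LibBS2
open scoped ENNReal

namespace OGraph

variable {G : Type} [Group G] {V B : Type} [MulAction G V] [MulAction G B] {q : ℕ}
  (Γ : OGraph G V B q)

theorem ch_smul (g : G) (v : V) (i : Fin q) :
    Γ.ch (g • v) (Γ.idx (g • Γ.ch v i)) = g • Γ.ch v i := by
  have h := Γ.ch_idx (g • Γ.ch v i)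
  rwa [Γ.o_smul, Γ.o_ch] at h

theorem node_cons (v : V) (i : Fin q) (ω : Om q) (k : ℕ) :
    Γ.node v (cons i ω) (k + 1) = Γ.node (Γ.t (Γ.ch v i)) ω k := by
  induction k with
  | zero => rfl
  | succ k ih =>
    show Γ.t (Γ.ch (Γ.node v (cons i ω) (k + 1)) (ω k)) = Γ.t (Γ.ch (Γ.node _ ω k) (ω k))
    rw [ih]

theorem act_cons (g : G) (v : V) (i : Fin q) (ω : Om q) :
    Γ.act g v (cons i ω) = cons (Γ.idx (g • Γ.ch v i)) (Γ.act g (Γ.t (Γ.ch v i)) ω) := by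
  funext k
  cases k with
  | zero => rfl
  | succ k =>
    show Γ.idx (g • Γ.ch (Γ.node v (cons i ω) (k + 1)) (ω k)) =
      Γ.idx (g • Γ.ch (Γ.node (Γ.t (Γ.ch v i)) ω k) (ω k))
    rw [node_cons]

theorem node_act (g : G) (v : V) (ω : Om q) (k : ℕ) :
    Γ.node (g • v) (Γ.act g v ω) k = g • Γ.node v ω k := by
  induction k with
  | zero => rfl
  | succ k ih =>
    show Γ.t (Γ.ch (Γ.node (g • v) (Γ.act g v ω) k) (Γ.idx (g • Γ.ch (Γ.node v ω k) (ω k)))) =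
      g • Γ.t (Γ.ch (Γ.node v ω k) (ω k))
    rw [ih, ch_smul, Γ.t_smul]

theorem act_one (v : V) (ω : Om q) : Γ.act 1 v ω = ω := by
  funext k
  show Γ.idx ((1 : G) • Γ.ch (Γ.node v ω k) (ω k)) = ω k
  rw [one_smul, Γ.idx_ch]

theorem act_mul (g h : G) (v : V) (ω : Om q) :
    Γ.act (g * h) v ω = Γ.act g (h • v) (Γ.act h v ω) := by
  funext k
  show Γ.idx ((g * h) • Γ.ch (Γ.node v ω k) (ω k)) =
    Γ.idx (g • Γ.ch (Γ.node (h • v) (Γ.act h v ω) k) (Γ.idx (h • Γ.ch (Γ.node v ω k) (ω k))))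
  rw [node_act, ch_smul, mul_smul]

theorem act_mp [NeZero q] (g : G) (v : V) : MeasurePreserving (Γ.act g v) (P q) (P q) := by
  refine transducer_mp (St := G × V) (fun s => Γ.act s.1 s.2)
    (fun s i => Γ.idx (s.1 • Γ.ch s.2 i)) (fun s i => (s.1, Γ.t (Γ.ch s.2 i)))
    (fun s i ω => Γ.act_cons s.1 s.2 i ω) (fun s => ?_) (g, v)
  refine Finite.injective_iff_bijective.1 fun i j hij => ?_
  have h1 : s.1 • Γ.ch s.2 i = s.1 • Γ.ch s.2 j := by
    have h3 := congrArg (Γ.ch (s.1 • s.2)) hij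
    rwa [Γ.ch_smul, Γ.ch_smul] at h3
  have h2 : Γ.ch s.2 i = Γ.ch s.2 j := MulAction.injective s.1 h1
  rw [← Γ.idx_ch s.2 i, h2, Γ.idx_ch]

/-- the space of the forward paths -/
def ext [NeZero q] : Ext G V (Om q) (P q) where
  act := Γ.act
  one := Γ.act_one
  mul := Γ.act_mul
  mp := Γ.act_mp

end OGraph

end Pool.Agent.LibMC2
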