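import Pool.Agent.LibBS2.NMod
import Pool.Agent.LibBS2.D01
import Pool.Agent.LibBS2.D06

/-!
Oriented `G`-graphs with `q` outgoing edges at every vertex, and the space of the infinite forward
paths.
-/

set_option autoImplicit false

namespace Pool.Agent.LibMC2

open Pool.Agent.LibBS2

/-- an oriented `G`-graph with vertices `V`, edges `B`, exactly `q` outgoing edges at every vertex, and
an enumeration of the outgoing edges -/
structure OGraph (G : Type) [Group G] (V B : Type) [MulAction G V] [MulAction G B] (q : ℕ) where
  /-- the origin -/
  o : B → V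
  /-- the end -/
  t : B → V
  o_smul : ∀ (g : G) (e : B), o (g • e) = g • o e
  t_smul : ∀ (g : G) (e : B), t (g • e) = g • t e
  /-- the outgoing edges -/
  ch : V → Fin q → B
  /-- the number of an edge -/
  idx : B → Fin q
  o_ch : ∀ (v : V) (i : Fin q), o (ch v i) = v
  idx_ch : ∀ (v : V) (i : Fin q), idx (ch v i) = i
  ch_idx : ∀ e : B, ch (o e) (idx e) = e

namespace OGraph

variable {G : Type} [Group G] {V B : Type} [MulAction G V] [MulAction G B] {q : ℕ}
  (Γ : OGraph G V B q)

/-- the vertices of the path with digits `ω` which starts at `v` -/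
def node (v : V) (ω : Om q) : ℕ → V
  | 0 => v
  | k + 1 => Γ.t (Γ.ch (node v ω k) (ω k))

/-- the digits of the translate by `g` of the path with digits `ω` which starts at `v` -/
def act (g : G) (v : V) (ω : Om q) : Om q := fun k => Γ.idx (g • Γ.ch (Γ.node v ω k) (ω k))

end OGraph

end Pool.Agent.LibMC2
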