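import Pool.Agent.LibMC2.M5
import Pool.Agent.LibBS2.K1
import Pool.Agent.LibBS2.K4

/-!
The module of the integer valued square summable functions, in elementary terms.
-/

set_option autoImplicit false

namespace Pool.Agent.LibMC2

open MeasureTheory CategoryTheory Pool.Agent.LibBS2
open scoped ENNReal

theorem isIso_of_bij {k : Type} [CommRing k] {G : Type} [Group G] {A B : Rep.{0} k G}
    (f : A ⟶ B) (hf : Function.Injective f.hom) (hs : Function.Surjective f.hom) : IsIso f := by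
  have := (Rep.mono_iff_injective f).2 hf
  have := (Rep.epi_iff_surjective f).2 hs
  exact isIso_of_mono_of_epi f

theorem iso_of_same_ker {k : Type} [CommRing k] {G : Type} [Group G] {A B C : Rep.{0} k G}
    (f : A ⟶ B) (g : A ⟶ C) (hf : Function.Surjective f.hom) (hg : Function.Surjective g.hom)
    (h : ∀ a : A, f.hom a = 0 ↔ g.hom a = 0) : Nonempty (B ≅ C) := by
  have key : ∀ a : A, g.hom (Function.surjInv hf (f.hom a)) = g.hom a := fun a => by
    have h1 : f.hom (Function.surjInv hf (f.hom a) - a) = 0 := by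
      rw [map_sub, Function.surjInv_eq hf, sub_self]
    have h2 := (h _).1 h1
    rw [map_sub, sub_eq_zero] at h2
    exact h2
  let ψ : B →ₗ[k] C :=
    { toFun := fun b => g.hom (Function.surjInv hf b)
      map_add' := fun b b' => by
        obtain ⟨a, rfl⟩ := hf b
        obtain ⟨a', rfl⟩ := hf b'
        rw [← map_add, key, key, key, map_add]
      map_smul' := fun c b => by
        obtain ⟨a, rfl⟩ := hf b
        rw [← map_smul, key, key, map_smul, RingHom.id_apply] }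
  have hψ : ∀ a : A, ψ (f.hom a) = g.hom a := key
  let F : B ⟶ C := Rep.ofHom ⟨ψ, fun x => by
    apply LinearMap.ext
    intro b
    obtain ⟨a, rfl⟩ := hf b
    show ψ (B.ρ x (f.hom a)) = C.ρ x (ψ (f.hom a))
    rw [← Rep.hom_comm_apply, hψ, hψ, Rep.hom_comm_apply]⟩
  have hF : ∀ a : A, F.hom (f.hom a) = g.hom a := key
  have h1 : Function.Injective F.hom := by
    intro b b' hbb
    obtain ⟨a, rfl⟩ := hf b
    obtain ⟨a', rfl⟩ := hf b'
    rw [hF, hF] at hbb
    have h2 : g.hom (a - a') = 0 := by rw [map_sub, hbb, sub_self]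
    have h3 := (h _).2 h2
    rw [map_sub, sub_eq_zero] at h3
    exact h3
  have h2 : Function.Surjective F.hom := fun c => by
    obtain ⟨a, rfl⟩ := hg c
    exact ⟨f.hom a, hF a⟩
  have := isIso_of_bij F h1 h2
  exact ⟨asIso F⟩

variable {G X Ω : Type} [Group G] [MulAction G X] [MeasurableSpace Ω] {μ : Measure Ω}

/-- `F` identifies the `ℤG`-module `N` with the module of the integer valued square summable functions
on `X × Ω`, modulo null functions -/
structure IsLZ (D : Ext G X Ω μ) (N : Rep.{0} ℤ G) (F : N → X → Ω → ℤ) : Prop where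
  meas : ∀ n x, Measurable (F n x)
  sq : ∀ n, ∑' x, ∫⁻ ω, ‖(F n x ω : ℝ)‖ₑ ^ 2 ∂μ ≠ ∞
  add : ∀ m n x, ∀ᵐ ω ∂μ, F (m + n) x ω = F m x ω + F n x ω
  inj : ∀ n, (∀ x, ∀ᵐ ω ∂μ, F n x ω = 0) → n = 0
  surj : ∀ f : X → Ω → ℤ, (∀ x, Measurable (f x)) → ∑' x, ∫⁻ ω, ‖(f x ω : ℝ)‖ₑ ^ 2 ∂μ ≠ ∞ →
    ∃ n, ∀ x, ∀ᵐ ω ∂μ, F n x ω = f x ω
  act : ∀ g n x, ∀ᵐ ω ∂μ, F (N.ρ g n) x ω = F n (g⁻¹ • x) (D.act g⁻¹ x ω)

namespace IsLZ

variable {D : Ext G X Ω μ} {N : Rep.{0} ℤ G} {F : N → X → Ω → ℤ} (h : IsLZ D N F)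

include h

theorem sqE (n : N) : SqE μ fun x ω => (F n x ω : ℝ) :=
  ⟨fun x => (measurable_from_top : Measurable (Int.cast : ℤ → ℝ)).comp (h.meas n x), h.sq n⟩

theorem toLX_ae (n : N) (x : X) : ∀ᵐ ω ∂μ, ((h.sqE n).toLX x : Ω → ℂ) ω = (F n x ω : ℂ) := by
  filter_upwards [(h.sqE n).toLX_ae x] with ω e
  rw [e]
  push_cast
  rfl

/-- the map to `NN` -/
noncomputable def toN : N →+ NN X Ω μ where
  toFun n := ⟨(h.sqE n).toLX, fun x => by
    filter_upwards [h.toLX_ae n x] with ω e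
    exact ⟨_, e⟩⟩
  map_zero' := by
    apply Subtype.ext
    refine lp.ext (funext fun x => ?_)
    have e0 : ∀ᵐ ω ∂μ, F (0 : N) x ω = 0 := by
      filter_upwards [h.add 0 0 x] with ω e
      rw [add_zero] at e
      omega
    refine Lp.ext ?_
    filter_upwards [h.toLX_ae 0 x, e0, Lp.coeFn_zero ℂ 2 μ] with ω e1 e2 e3
    refine Eq.trans e1 (Eq.trans ?_ e3.symm)
    rw [e2]
    simp
  map_add' m n := by
    apply Subtype.ext
    refine lp.ext (funext fun x => ?_)
    refine Lp.ext ?_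
    filter_upwards [h.toLX_ae (m + n) x, h.toLX_ae m x, h.toLX_ae n x, h.add m n x,
      Lp.coeFn_add ((h.sqE m).toLX x) ((h.sqE n).toLX x)] with ω e1 e2 e3 e4 e5
    refine Eq.trans e1 (Eq.trans ?_ e5.symm)
    rw [Pi.add_apply, e2, e3, e4]
    push_cast
    rfl

theorem toN_ae (n : N) (x : X) : ∀ᵐ ω ∂μ, ((h.toN n).1 x : Ω → ℂ) ω = (F n x ω : ℂ) :=
  h.toLX_ae n x

theorem toN_inj : Function.Injective h.toN := by
  rw [injective_iff_map_eq_zero]
  intro n hn
  refine h.inj n fun x => ?_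
  filter_upwards [h.toN_ae n x, Lp.coeFn_zero ℂ 2 μ] with ω e1 e2
  rw [hn] at e1
  have e3 : ((0 : Lp ℂ 2 μ) : Ω → ℂ) ω = (F n x ω : ℂ) := e1
  rw [e2, Pi.zero_apply] at e3
  exact_mod_cast e3.symm

theorem toN_surj : Function.Surjective h.toN := by
  intro f
  have hm : ∀ x, Measurable fun ω => ⌊((f.1 x : Ω → ℂ) ω).re + 1 / 2⌋ := fun x =>
    Int.measurable_floor.comp
      ((Complex.measurable_re.comp (Lp.stronglyMeasurable (f.1 x)).measurable).add_const _)
  have hv : ∀ x, ∀ᵐ ω ∂μ, (f.1 x : Ω → ℂ) ω = (⌊((f.1 x : Ω → ℂ) ω).re + 1 / 2⌋ : ℂ) := by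
    intro x
    filter_upwards [f.2 x] with ω ⟨k, hk⟩
    have e : ⌊((k : ℂ)).re + 1 / 2⌋ = k := by
      rw [Complex.intCast_re, Int.floor_intCast_add]
      norm_num
    rw [hk, e]
  obtain ⟨r, hr, hre⟩ := exists_re f.1
  obtain ⟨n, hn⟩ := h.surj (fun x ω => ⌊((f.1 x : Ω → ℂ) ω).re + 1 / 2⌋) hm (by
    refine ne_top_of_le_ne_top hr.2 (ENNReal.tsum_le_tsum fun x => le_of_eq ?_)
    refine lintegral_congr_ae ?_
    filter_upwards [hv x, hre x] with ω e1 e2
    have e3 : ((⌊((f.1 x : Ω → ℂ) ω).re + 1 / 2⌋ : ℤ) : ℝ) = r x ω := by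
      rw [e2]
      conv_rhs => rw [e1]
      simp
    rw [e3])
  refine ⟨n, Subtype.ext (lp.ext (funext fun x => Lp.ext ?_))⟩
  filter_upwards [h.toN_ae n x, hn x, hv x] with ω e1 e2 e3
  refine Eq.trans e1 ?_
  rw [e2]
  exact_mod_cast e3.symm

theorem toN_act (g : G) (n : N) : h.toN (N.ρ g n) = D.repN g (h.toN n) := by
  refine Subtype.ext (lp.ext (funext fun x => Lp.ext ?_))
  have e2 := D.coc_apply g x ((h.toN n).1 (g⁻¹ • x))
  have e3 := (D.mp g⁻¹ x).quasiMeasurePreserving.ae (h.toN_ae n (g⁻¹ • x))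
  filter_upwards [h.toN_ae (N.ρ g n) x, h.act g n x, e2, e3] with ω e1 e4 e2 e3
  refine Eq.trans e1 (Eq.trans ?_ e2.symm)
  rw [e4, e3]

/-- the linear map -/
noncomputable def lin : @LinearMap ℤ ℤ _ _ (RingHom.id ℤ) N (NN X Ω μ) _ _ N.hV2 _ :=
  letI : Module ℤ N := N.hV2
  { toFun := h.toN
    map_add' := map_add h.toN
    map_smul' := fun k n => by
      have := map_intCast_smul h.toN ℤ ℤ k n
      rw [Int.cast_id] at this
      exact this }

/-- the isomorphism -/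
noncomputable def homN : N ⟶ D.NRep :=
  letI : Module ℤ N := N.hV2
  Rep.ofHom ⟨h.lin, fun g => by
    apply LinearMap.ext
    intro n
    exact h.toN_act g n⟩

theorem homN_iso : IsIso h.homN := isIso_of_bij h.homN h.toN_inj h.toN_surj

theorem nontrivial_N {m : ℕ} (hne : Nontrivial (groupHomology N m)) :
    Nontrivial (groupHomology D.NRep m) := by
  have := h.homN_iso
  have e : groupHomology N m ≅ groupHomology D.NRep m :=
    (groupHomology.functor ℤ G m).mapIso (asIso h.homN)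
  exact ((forget _).mapIso e).toEquiv.symm.nontrivial

/-! ### the quotient by the functions which are constant on the fibres -/

section quot

variable [IsProbabilityMeasure μ] {Q : Rep.{0} ℤ G} (π : N ⟶ Q)
  (hπ : Function.Surjective π.hom)
  (hker : ∀ n : N, π.hom n = 0 ↔ ∀ x, ∃ r : ℤ, ∀ᵐ ω ∂μ, F n x ω = r)

omit h in
theorem iotaN_ae (p : MonoidAlgebra ℤ X) (x : X) :
    ∀ᵐ ω ∂μ, ((iotaN X μ p).1 x : Ω → ℂ) ω = ((p.coeff x : ℤ) : ℂ) := by
  rw [iotaN_apply, iotaL_apply]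
  filter_upwards [Lp.coeFn_smul ((p.coeff x : ℤ) : ℂ) (one1 μ), one1_ae (μ := μ)] with ω h1 h2
  rw [h1, Pi.smul_apply, h2, smul_eq_mul, mul_one]

include hker

theorem ker_iff (n : N) : π.hom n = 0 ↔ D.prQ.hom (h.homN.hom n) = 0 := by
  rw [hker]
  constructor
  · intro h1
    refine (Submodule.Quotient.mk_eq_zero _).2 (mem_range_iotaN (h.toN n) fun x => ?_)
    obtain ⟨r, hr⟩ := h1 x
    refine ⟨(r : ℂ), ?_⟩
    filter_upwards [hr, h.toN_ae n x] with ω e1 e2
    rw [e2, e1]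
  · intro h1 x
    obtain ⟨p, hp⟩ := (Submodule.Quotient.mk_eq_zero (LinearMap.range (iotaN X μ))).1 h1
    refine ⟨p.coeff x, ?_⟩
    have hp' : iotaN X μ p = h.toN n := hp
    filter_upwards [iotaN_ae (μ := μ) p x, h.toN_ae n x] with ω e1 e2
    rw [hp', e2] at e1
    exact_mod_cast e1

include hπ

theorem nontrivial_Q {m : ℕ} (hne : Nontrivial (groupHomology Q m)) :
    Nontrivial (groupHomology D.QRep m) := by
  obtain ⟨e⟩ := iso_of_same_ker π (h.homN ≫ D.prQ) hπ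
    ((prQ_surj D).comp h.toN_surj) (fun n => h.ker_iff π hker n)
  have e' : groupHomology Q m ≅ groupHomology D.QRep m :=
    (groupHomology.functor ℤ G m).mapIso e
  exact ((forget _).mapIso e').toEquiv.symm.nontrivial

end quot

end IsLZ

end Pool.Agent.LibMC2
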