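import Pool.Agent.LibBS2.T3

/-!
M1. Weak containment for a `G`-set with any number of orbits (`T3.norm_repH_le` is the transitive case).

PLAN. (1) `Imp.norm_sq`: for a finset `s` of points, `I.e x (∑ y ∈ s, I.e y v) = if x ∈ s then I.e x v else 0`.
(2) For a point `o` let `H_o := {v : H | ∀ x ∉ orbit G o, I.e x v = 0}`, a closed submodule of `H`
(intersection of kernels of continuous maps: `Submodule` + `isClosed`; CompleteSpace by
`IsClosed.completeSpace_coe`), and `I_o : Imp G (MulAction.orbit G o) H_o` with the restricted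
operators (U g preserves H_o by eU: `e x (U g v) = U g (e (g⁻¹ x) v)`; `tot`, `sq`: the sum over all `x`
is the sum over the orbit because the other terms vanish: `hasSum_subtype_iff_of_support_subset`);
the orbit is transitive, its stabilizers are stabilizers of points of `X`
(`MulAction.orbit` has the instance; transport `Amenable` along the equality of subgroups).
T3.norm_repH_le for I_o gives `‖repH I f v‖ ≤ ‖Raw.T G G f‖ * ‖v‖` for `v ∈ H_o`.
(3) For `u = ∑ x ∈ s, I.e x v` group `s` by orbits (`Quotient.mk (orbitRel G X)`; finset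
`s.image Quotient.mk''`): `u = ∑ O, u_O`, `u_O = ∑ x ∈ s with [x] = O, e x v ∈ H_O`. By `sq`:
`‖∑ O w_O‖² = ∑ O ‖w_O‖²` for every finite family `w_O ∈ H_O` (the supports `{x | e x w_O ≠ 0}` are
disjoint). Apply it to `u_O` and `repH I f u_O ∈ H_O`. (4) pass to the limit over `s` as in norm_repH_le.
Alternative to (2): repeat the proof of T3 with a lift into functions on `G × orbits`.
-/

set_option autoImplicit false

namespace Pool.Agent.LibMC2

open Pool.Agent.LibZIS Pool.Agent.LibBS2

universe u v w

section M1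

variable {G : Type u} [Group G] {X : Type v} [MulAction G X] {H : Type w}
    [NormedAddCommGroup H] [InnerProductSpace ℂ H]

/-- the vectors supported on the orbit of `o` -/
private def M1_sub (I : Imp G X H) (o : X) : Submodule ℂ H where
  carrier := {v | ∀ x, x ∉ MulAction.orbit G o → I.e x v = 0}
  zero_mem' := fun x _ => map_zero _
  add_mem' := fun {a b} ha hb x hx => by rw [map_add, ha x hx, hb x hx, add_zero]
  smul_mem' := fun c a ha x hx => by rw [map_smul, ha x hx, smul_zero]

private lemma M1_mem (I : Imp G X H) (o : X) (v : H) :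
    v ∈ M1_sub I o ↔ ∀ x, x ∉ MulAction.orbit G o → I.e x v = 0 := Iff.rfl

private lemma M1_closed (I : Imp G X H) (o : X) : IsClosed (M1_sub I o : Set H) := by
  have h : (M1_sub I o : Set H) = ⋂ (x : X) (_ : x ∉ MulAction.orbit G o), {v | I.e x v = 0} := by
    ext v
    simp only [SetLike.mem_coe, M1_mem, Set.mem_iInter, Set.mem_ofPred_eq]
  rw [h]
  exact isClosed_iInter fun x => isClosed_iInter fun _ =>
    isClosed_eq (I.e x).continuous continuous_const

private lemma M1_U (I : Imp G X H) (o : X) (g : G) (v : H) (hv : v ∈ M1_sub I o) :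
    I.U g v ∈ M1_sub I o := by
  intro x hx
  have h1 : g⁻¹ • x ∉ MulAction.orbit G o := fun h => hx (by
    have h3 := MulAction.mem_orbit_of_mem_orbit g h
    rwa [smul_inv_smul] at h3)
  have h2 := I.eU g (g⁻¹ • x) v
  rw [smul_inv_smul, hv _ h1, map_zero] at h2
  exact h2

private lemma M1_e (I : Imp G X H) (o : X) (x : X) (hx : x ∈ MulAction.orbit G o) (v : H) :
    I.e x v ∈ M1_sub I o := by
  intro y hy
  exact I.ne y x v fun h => hy (h ▸ hx)

/-- the restriction to an orbit -/
private noncomputable def M1_imp (I : Imp G X H) (o : X) :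
    Imp G (MulAction.orbit G o) (M1_sub I o) where
  U g := ((I.U g).comp (M1_sub I o).subtypeL).codRestrict (M1_sub I o)
    fun v => M1_U I o g v.1 v.2
  norm g v := I.norm g v.1
  one := by
    ext v
    show I.U 1 v.1 = v.1
    rw [I.one]
    rfl
  mul g h := by
    ext v
    show I.U (g * h) v.1 = I.U g (I.U h v.1)
    rw [I.mul]
    rfl
  e x := ((I.e x.1).comp (M1_sub I o).subtypeL).codRestrict (M1_sub I o)
    fun v => M1_e I o x.1 x.2 v.1
  tot v := by
    have h1 : Topology.IsInducing (M1_sub I o).subtypeL := Topology.IsInducing.subtypeVal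
    rw [← h1.hasSum_iff]
    have h2 := I.tot v.1
    rw [← hasSum_subtype_iff_of_support_subset (s := MulAction.orbit G o) ?_] at h2
    · exact h2
    · intro x hx
      by_contra h3
      exact hx (v.2 x h3)
  sq v := by
    have h2 := I.sq v.1
    rw [← hasSum_subtype_iff_of_support_subset (s := MulAction.orbit G o) ?_] at h2
    · exact h2
    · intro x hx
      by_contra h3
      apply hx
      show ‖I.e x v.1‖ ^ 2 = 0
      rw [v.2 x h3, norm_zero]
      norm_num
  ee x v := Subtype.ext (I.ee x.1 v.1)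
  ne x y v h := Subtype.ext (I.ne x.1 y.1 v.1 fun h' => h (Subtype.ext h'))
  eU g x v := Subtype.ext (I.eU g x.1 v.1)


private lemma M1_repH (I : Imp G X H) (o : X) (f : MonoidAlgebra ℂ G) [CompleteSpace H]
    [CompleteSpace (M1_sub I o)] (v : M1_sub I o) :
    ((repH (M1_imp I o) f v : M1_sub I o) : H) = repH I f (v : H) := by
  rw [repH_apply, repH_apply, Submodule.coe_sum]
  rfl

private lemma M1_orbit [CompleteSpace H] (hst : ∀ x : X, Amenable (MulAction.stabilizer G x))
    (I : Imp G X H) (f : MonoidAlgebra ℂ G) (o : X) (v : H) (hv : v ∈ M1_sub I o) :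
    repH I f v ∈ M1_sub I o ∧ ‖repH I f v‖ ≤ ‖Raw.T G G f‖ * ‖v‖ := by
  have : CompleteSpace (M1_sub I o) := (M1_closed I o).completeSpace_coe
  have h1 := M1_repH I o f ⟨v, hv⟩
  have hst' : ∀ x : MulAction.orbit G o, Amenable (MulAction.stabilizer G x) := by
    intro x
    have h2 : MulAction.stabilizer G x = MulAction.stabilizer G (x : X) := by
      ext g
      rw [MulAction.mem_stabilizer_iff, MulAction.mem_stabilizer_iff, Subtype.ext_iff]
      rfl
    rw [h2]
    exact hst x
  have htr : ∀ x y : MulAction.orbit G o, ∃ g : G, g • x = y :=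
    fun x y => MulAction.exists_smul_eq G x y
  have h2 := norm_repH_le htr hst' (M1_imp I o) f
  have h3 : repH I f v = ((repH (M1_imp I o) f ⟨v, hv⟩ : M1_sub I o) : H) := h1.symm
  rw [h3]
  refine ⟨Subtype.property _, ?_⟩
  have h4 := (repH (M1_imp I o) f).le_opNorm ⟨v, hv⟩
  exact h4.trans (mul_le_mul_of_nonneg_right h2 (norm_nonneg _))

private lemma M1_pyth (I : Imp G X H) (t : Finset (MulAction.orbitRel.Quotient G X))
    (w : MulAction.orbitRel.Quotient G X → H)
    (hw : ∀ O, ∀ x : X, (Quotient.mk'' x : MulAction.orbitRel.Quotient G X) ≠ O → I.e x (w O) = 0) :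
    ‖∑ O ∈ t, w O‖ ^ 2 = ∑ O ∈ t, ‖w O‖ ^ 2 := by
  classical
  have h1 := I.sq (∑ O ∈ t, w O)
  have h2 : HasSum (fun x => ∑ O ∈ t, ‖I.e x (w O)‖ ^ 2) (∑ O ∈ t, ‖w O‖ ^ 2) :=
    hasSum_sum fun O _ => I.sq (w O)
  have h3 : (fun x => ‖I.e x (∑ O ∈ t, w O)‖ ^ 2) = fun x => ∑ O ∈ t, ‖I.e x (w O)‖ ^ 2 := by
    funext x
    rw [map_sum]
    by_cases hx : (Quotient.mk'' x : MulAction.orbitRel.Quotient G X) ∈ t
    · rw [Finset.sum_eq_single_of_mem _ hx fun O _ hO => hw O x hO.symm,
        Finset.sum_eq_single_of_mem _ hx fun O _ hO => by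
          rw [hw O x hO.symm, norm_zero]; norm_num]
    · have h4 : ∀ O ∈ t, I.e x (w O) = 0 := fun O hO => hw O x fun h => hx (h ▸ hO)
      rw [Finset.sum_eq_zero h4, Finset.sum_eq_zero fun O hO => by
        rw [h4 O hO, norm_zero]; norm_num]
      rw [norm_zero]
      norm_num
  rw [h3] at h1
  exact h1.unique h2

private lemma M1_finite [CompleteSpace H] (hst : ∀ x : X, Amenable (MulAction.stabilizer G x))
    (I : Imp G X H) (f : MonoidAlgebra ℂ G) (s : Finset X) (v : H) :
    ‖repH I f (∑ x ∈ s, I.e x v)‖ ≤ ‖Raw.T G G f‖ * ‖∑ x ∈ s, I.e x v‖ := by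
  classical
  let π : X → MulAction.orbitRel.Quotient G X := fun x => Quotient.mk'' x
  have horb : ∀ (O : MulAction.orbitRel.Quotient G X) (x : X), x ∈ MulAction.orbit G O.out ↔ π x = O := by
    intro O x
    rw [← MulAction.orbitRel_apply]
    constructor
    · intro h
      have h5 : (Quotient.mk'' x : MulAction.orbitRel.Quotient G X) = Quotient.mk'' O.out :=
        Quotient.sound' h
      rw [show π x = Quotient.mk'' x from rfl, h5]
      exact Quotient.out_eq' O
    · intro h
      apply Quotient.exact'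
      rw [show (Quotient.mk'' x : MulAction.orbitRel.Quotient G X) = π x from rfl, h]
      exact (Quotient.out_eq' O).symm
  have hmaps : ∀ x ∈ s, π x ∈ s.image π := fun x hx => Finset.mem_image_of_mem _ hx
  set u : MulAction.orbitRel.Quotient G X → H := fun O =>
    ∑ x ∈ s.filter (fun x => π x = O), I.e x v with hu
  have hsum : ∑ x ∈ s, I.e x v = ∑ O ∈ s.image π, u O :=
    (Finset.sum_fiberwise_of_maps_to hmaps _).symm
  have humem : ∀ O, u O ∈ M1_sub I O.out := by
    intro O
    refine Submodule.sum_mem _ fun x hx => ?_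
    rw [Finset.mem_filter] at hx
    exact M1_e I O.out x ((horb O x).2 hx.2) v
  have hmem' : ∀ (O : MulAction.orbitRel.Quotient G X) (w : H), w ∈ M1_sub I O.out →
      ∀ x : X, (Quotient.mk'' x : MulAction.orbitRel.Quotient G X) ≠ O → I.e x w = 0 :=
    fun O w hw x hx => hw x fun h => hx ((horb O x).1 h)
  have hu2 := fun O => M1_orbit hst I f O.out (u O) (humem O)
  rw [hsum, map_sum]
  have e1 := M1_pyth I (s.image π) u fun O x hx => hmem' O _ (humem O) x hx
  have e2 := M1_pyth I (s.image π) (fun O => repH I f (u O))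
    fun O x hx => hmem' O _ (hu2 O).1 x hx
  refine (sq_le_sq₀ (norm_nonneg _) (mul_nonneg (norm_nonneg _) (norm_nonneg _))).1 ?_
  rw [mul_pow, e1, e2, Finset.mul_sum]
  refine Finset.sum_le_sum fun O _ => ?_
  rw [← mul_pow]
  exact pow_le_pow_left₀ (norm_nonneg _) (hu2 O).2 2

end M1

theorem norm_repH_le' {G : Type u} [Group G] {X : Type v} [MulAction G X] {H : Type w}
    [NormedAddCommGroup H] [InnerProductSpace ℂ H] [CompleteSpace H]
    (hst : ∀ x : X, Amenable (MulAction.stabilizer G x)) (I : Imp G X H)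
    (f : MonoidAlgebra ℂ G) : ‖repH I f‖ ≤ ‖Raw.T G G f‖ := by
  classical
  refine ContinuousLinearMap.opNorm_le_bound _ (norm_nonneg _) fun v => ?_
  have h2 : Filter.Tendsto (fun s : Finset X => ∑ x ∈ s, I.e x v) Filter.atTop (nhds v) := I.tot v
  have h3 := ((repH I f).continuous.tendsto v).comp h2
  exact le_of_tendsto_of_tendsto' h3.norm (h2.norm.const_mul _)
    fun s => M1_finite hst I f s v

end Pool.Agent.LibMC2
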