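import Pool.Agent.LibMC2.M1
import Pool.Agent.LibBS2.T5
import Pool.Agent.LibBS2.T6
import Pool.Agent.LibCod83.Vanish

/-!
M2. Vanishing of invariant vectors, `H¹` and `H²` for vector valued monomial representations over a
`G`-set with amenable stabilizers (any number of orbits).
-/

set_option autoImplicit false

namespace Pool.Agent.LibMC2

open Pool.Agent.LibZIS Pool.Agent.LibCod83 Pool.Agent.LibBS2

universe v

variable {G : Type} [Group G] {X : Type} [MulAction G X] {K : Type} [NormedAddCommGroup K]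
  [InnerProductSpace ℂ K] [CompleteSpace K]

variable {E : Type v} [TopologicalSpace E] [PathConnectedSpace E]
  [MulAction G E] [ContinuousConstSMul G E]

theorem h0v (hst : ∀ x : X, Amenable (MulAction.stabilizer G x))
    (h0 : ¬ Nontrivial (Hgy (lam G) E 0)) (C : VCoc G X K) (f : lp (fun _ : X => K) 2)
    (hf : ∀ g x, C.U g x (f (g⁻¹ • x)) = f x) : f = 0 := by
  obtain ⟨I, hI⟩ := exists_imp C
  obtain ⟨S, hS, -⟩ := exists_rep_of_norm (repH I) (norm_repH_le' hst I)
  let _ : Module (Cr G) (lp (fun _ : X => K) 2) := Module.compHom (lp (fun _ : X => K) 2) S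
  have hsm : ∀ (g : G) (v : lp (fun _ : X => K) 2), lam G g • v = I.U g v := by
    intro g v
    show S (lam G g) v = I.U g v
    rw [hS, repH, MonoidAlgebra.lift_single, one_smul]
    rfl
  obtain ⟨x0⟩ : Nonempty E := inferInstance
  refine invariant_zero_of_module (lam G) x0 h0 f fun g => ?_
  rw [hsm]
  ext x
  rw [hI, hf]

theorem h1v (hfree : ∀ (g : G) (e : E), g • e = e → g = 1)
    (hst : ∀ x : X, Amenable (MulAction.stabilizer G x))
    (h0 : ¬ Nontrivial (Hgy (lam G) E 0)) (h1 : ¬ Nontrivial (Hgy (lam G) E 1)) :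
    H1V G X K := by
  intro C b hb
  obtain ⟨I, hI⟩ := exists_imp C
  obtain ⟨S, hS, -⟩ := exists_rep_of_norm (repH I) (norm_repH_le' hst I)
  have hS' : ∀ (g : G) (f : lp (fun _ : X => K) 2), S (lam G g) f = I.U g f := by
    intro g f
    rw [hS, repH, MonoidAlgebra.lift_single, one_smul]
    rfl
  let _ : Module (Cr G) (lp (fun _ : X => K) 2) := Module.compHom _ S
  obtain ⟨v, hv⟩ := coboundary_of_trivial (lam G) hfree h0 h1 b (fun g h => by
    have hsm : lam G g • b h = I.U g (b h) := hS' g (b h)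
    rw [hsm]
    ext x
    rw [lp.coeFn_add, Pi.add_apply, hI, hb])
  refine ⟨v, fun g x => ?_⟩
  have hsm : lam G g • v = I.U g v := hS' g v
  have h2 := congrArg (fun ξ : lp (fun _ : X => K) 2 => (ξ : ∀ _ : X, K) x) (hv g)
  simp only [lp.coeFn_sub, Pi.sub_apply] at h2
  rw [hsm, hI] at h2
  exact h2

theorem h2v (hfree : ∀ (g : G) (e : E), g • e = e → g = 1) (hE : H1Zero E)
    (hst : ∀ x : X, Amenable (MulAction.stabilizer G x))
    (h0 : ¬ Nontrivial (Hgy (lam G) E 0)) (h1 : ¬ Nontrivial (Hgy (lam G) E 1))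
    (h2 : ¬ Nontrivial (Hgy (lam G) E 2)) :
    H2V G X K := by
  intro C b hb
  obtain ⟨I, hI⟩ := exists_imp C
  obtain ⟨S, hS, -⟩ := exists_rep_of_norm (repH I) (norm_repH_le' hst I)
  let _ : Module (Cr G) (lp (fun _ : X => K) 2) := Module.compHom (lp (fun _ : X => K) 2) S
  have hsm : ∀ (g : G) (v : lp (fun _ : X => K) 2), lam G g • v = I.U g v := by
    intro g v
    show S (lam G g) v = I.U g v
    rw [hS, repH, MonoidAlgebra.lift_single, one_smul]
    rfl
  obtain ⟨c, hc⟩ := coboundary2_of_trivial (lam G) hfree hE h0 h1 h2 b (fun g h k => by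
    apply lp.ext
    funext x
    rw [hsm, lp.coeFn_sub, lp.coeFn_add, lp.coeFn_sub, Pi.sub_apply, Pi.add_apply, Pi.sub_apply,
      hI, hb]
    rfl)
  refine ⟨c, fun g h x => ?_⟩
  have h3 := congrArg (fun ξ : lp (fun _ : X => K) 2 => (ξ : ∀ _ : X, K) x) (hc g h)
  simp only [lp.coeFn_sub, lp.coeFn_add, Pi.sub_apply, Pi.add_apply] at h3
  rw [hsm, hI] at h3
  exact h3

end Pool.Agent.LibMC2
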