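import Pool.Agent.LibMC2.M2
import Pool.Agent.LibBS2.K1
import Pool.Agent.LibBS2.C02

/-!
M3. The module `N` of the integer valued square summable functions on a measured extension:
`H⁰(G;N) = H¹(G;N) = 0`.

PLAN. coh0_NRep: an element of `groupCohomology E.NRep 0` is an invariant element of `N`
(`groupCohomology.H0Iso` ≅ invariants), invariant under `E.coc.op g`; `H0` gives zero.
coh1_NRep: every element of `groupCohomology E.NRep 1` is the class of a one-cocycle
`z : G → N` (`groupCohomology.H1_induction_on`; `H1π_eq_zero_iff`, `coboundaries₁`; the cocycle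
equation is `z (g h) = ρ g (z h) + z g`). Take `b g := (z g).1`, a cocycle for `C := E.coc`: `H1` gives
`v : LX X Ω μ` with `z g = op g v - v`. K1.exists_re: measurable `r : X → Ω → ℝ` with `SqE μ r`,
`r x = re (v x)` a.e. Let `u x ω = ex (r x ω) - 1`; it is square summable (`|ex t - 1| ≤ 2π|t|`,
see C08_enorm_ex; build the element of LX as in K1 (`SqE.toLX`) or C03/C04), invariant: for a.e. `ω`,
`r (g⁻¹x)(act g⁻¹ x ω) - r x ω = re (z g x ω)` is an integer. `H0` (for `E.coc`) gives `u = 0`, so `r` is integer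
valued a.e.; `n := r` as an element of `NN`; `op g n - n = re (z g) = z g` since `z g` is integer valued.
-/

set_option autoImplicit false

namespace Pool.Agent.LibMC2

open MeasureTheory CategoryTheory Pool.Agent.LibBS2
open scoped ENNReal
open Pool.Agent.LibCod83 (ex)

variable {G X Ω : Type} [Group G] [MulAction G X] [MeasurableSpace Ω] {μ : Measure Ω}
  [IsProbabilityMeasure μ]

private theorem M3_measurable_ex : Measurable ex := by
  unfold Pool.Agent.LibCod83.ex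
  fun_prop

private theorem M3_memLp {f : X → Ω → ℝ} (hf : SqE μ f) (x : X) :
    MemLp (fun ω => ex (f x ω) - 1) 2 μ := by
  refine MemLp.of_bound ((M3_measurable_ex.comp (hf.1 x)).sub_const 1).aestronglyMeasurable 2 ?_
  refine Filter.Eventually.of_forall fun ω => ?_
  refine (norm_sub_le _ _).trans ?_
  rw [Pool.Agent.LibCod83.norm_ex, norm_one]
  norm_num

private theorem M3_summable {f : X → Ω → ℝ} (hf : SqE μ f) :
    Summable fun x => ‖((M3_memLp hf x).toLp _ : Lp ℂ 2 μ)‖ ^ 2 := by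
  refine Summable.of_nonneg_of_le (fun x => by positivity) (fun x => ?_)
    (hf.summable.mul_left ((2 * Real.pi) ^ 2))
  rw [← mul_pow]
  refine pow_le_pow_left₀ (norm_nonneg _) ?_ 2
  refine Lp.norm_le_mul_norm_of_ae_le_mul ?_
  filter_upwards [MemLp.coeFn_toLp (M3_memLp hf x), MemLp.coeFn_toLp (hf.memLp x)] with ω h1 h2
  rw [h1, h2, Complex.norm_real, Real.norm_eq_abs]
  exact Pool.Agent.LibCod83.norm_ex_sub_one _

/-- the function `exp 2πi f - 1` -/
private noncomputable def M3_u {f : X → Ω → ℝ} (hf : SqE μ f) : LX X Ω μ :=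
  lpMk (fun x => (M3_memLp hf x).toLp _) (M3_summable hf)

private theorem M3_u_ae {f : X → Ω → ℝ} (hf : SqE μ f) (x : X) :
    (M3_u hf x : Ω → ℂ) =ᵐ[μ] fun ω => ex (f x ω) - 1 := MemLp.coeFn_toLp (M3_memLp hf x)

private theorem M3_key (D : Ext G X Ω μ)
    (H0 : ∀ f : LX X Ω μ, (∀ g, D.coc.op g f = f) → f = 0)
    (H1 : H1V G X (Lp ℂ 2 μ)) (z : G → NN X Ω μ)
    (hz : ∀ g h, z (g * h) = D.repN g (z h) + z g) :
    ∃ m : NN X Ω μ, ∀ g, D.repN g m - m = z g := by
  obtain ⟨v, hv⟩ := H1 D.coc (fun g => (z g).1) (fun g h x => by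
    have h1 := congrArg (fun f : NN X Ω μ => (f.1 x : Lp ℂ 2 μ)) (hz g h)
    have h2 : ((z (g * h)).1 x : Lp ℂ 2 μ) = D.coc.U g x ((z h).1 (g⁻¹ • x)) + (z g).1 x := h1
    rw [h2, add_comm])
  obtain ⟨r, hr, hrv⟩ := exists_re v
  -- the coboundary of the real parts
  have hb : ∀ g x, ∀ᵐ ω ∂μ, (((z g).1 x : Lp ℂ 2 μ) : Ω → ℂ) ω =
      ((r (g⁻¹ • x) (D.act g⁻¹ x ω) - r x ω : ℝ) : ℂ) := by
    intro g x
    have e1 := hv g x
    have q1 := Lp.coeFn_sub (D.coc.U g x (v (g⁻¹ • x))) (v x)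
    rw [← e1] at q1
    have q2 := D.coc_apply g x (v (g⁻¹ • x))
    have q3 := (D.mp g⁻¹ x).quasiMeasurePreserving.ae (hrv (g⁻¹ • x))
    filter_upwards [q1, q2, q3, hrv x, (z g).2 x] with ω q1 q2 q3 q4 ⟨n, hn⟩
    rw [Pi.sub_apply, q2] at q1
    rw [q3, q4, ← Complex.sub_re, ← q1, hn, Complex.intCast_re]
    push_cast
    rfl
  have hint : ∀ g x, ∀ᵐ ω ∂μ, ∃ n : ℤ, r (g⁻¹ • x) (D.act g⁻¹ x ω) - r x ω = n := by
    intro g x
    filter_upwards [hb g x, (z g).2 x] with ω h1 ⟨n, hn⟩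
    refine ⟨n, ?_⟩
    rw [hn] at h1
    exact_mod_cast h1.symm
  -- the invariant function
  have hu : M3_u hr = 0 := by
    refine H0 _ fun g => ?_
    ext x : 2
    rw [VCoc.op_apply]
    apply Lp.ext
    have q1 := D.coc_apply g x (M3_u hr (g⁻¹ • x))
    have q2 := (D.mp g⁻¹ x).quasiMeasurePreserving.ae (M3_u_ae hr (g⁻¹ • x))
    filter_upwards [q1, q2, M3_u_ae hr x, hint g x] with ω q1 q2 q3 ⟨n, hn⟩
    rw [q1, q2, q3]
    have h4 : r (g⁻¹ • x) (D.act g⁻¹ x ω) = r x ω + n := by linarith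
    rw [h4, Pool.Agent.LibCod83.ex_add, Pool.Agent.LibCod83.ex_int, mul_one]
  have hri : ∀ x, ∀ᵐ ω ∂μ, ∃ n : ℤ, r x ω = n := by
    intro x
    have q1 := M3_u_ae hr x
    have q2 : (M3_u hr x : Lp ℂ 2 μ) = 0 := by rw [hu]; rfl
    rw [q2] at q1
    filter_upwards [q1, Lp.coeFn_zero ℂ 2 μ] with ω q1 q3
    rw [q3] at q1
    exact Pool.Agent.LibCod83.exists_int_of_ex_eq_one _ (sub_eq_zero.1 q1.symm)
  refine ⟨⟨hr.toLX, fun x => ?_⟩, fun g => ?_⟩
  · filter_upwards [hr.toLX_ae x, hri x] with ω h1 ⟨n, hn⟩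
    refine ⟨n, ?_⟩
    rw [h1, hn]
    push_cast
    rfl
  · apply Subtype.ext
    ext x : 2
    show (D.coc.U g x (hr.toLX (g⁻¹ • x)) - hr.toLX x : Lp ℂ 2 μ) = (z g).1 x
    apply Lp.ext
    have q1 := Lp.coeFn_sub (D.coc.U g x (hr.toLX (g⁻¹ • x))) (hr.toLX x)
    have q2 := D.coc_apply g x (hr.toLX (g⁻¹ • x))
    have q3 := (D.mp g⁻¹ x).quasiMeasurePreserving.ae (hr.toLX_ae (g⁻¹ • x))
    filter_upwards [q1, q2, q3, hr.toLX_ae x, hb g x] with ω q1 q2 q3 q4 q5
    rw [q1, Pi.sub_apply, q2, q3, q4, q5]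
    push_cast
    rfl

theorem coh0_NRep (D : Ext G X Ω μ)
    (H0 : ∀ f : LX X Ω μ, (∀ g, D.coc.op g f = f) → f = 0) :
    ¬ Nontrivial (groupCohomology D.NRep 0) := by
  rw [not_nontrivial_iff_subsingleton]
  have key : ∀ x : groupCohomology D.NRep 0, x = 0 := by
    intro x
    refine groupCohomology.H0_induction_on (A := D.NRep) (C := fun x => x = 0) x fun f => ?_
    have h1 : f = 0 := by
      apply Subtype.ext
      apply Subtype.ext
      exact H0 (f.1 : NN X Ω μ).1 fun g => congrArg Subtype.val (f.2 g)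
    rw [h1, map_zero]
  exact ⟨fun a b => by rw [key a, key b]⟩

theorem coh1_NRep (D : Ext G X Ω μ)
    (H0 : ∀ f : LX X Ω μ, (∀ g, D.coc.op g f = f) → f = 0)
    (H1 : H1V G X (Lp ℂ 2 μ)) :
    ¬ Nontrivial (groupCohomology D.NRep 1) := by
  rw [not_nontrivial_iff_subsingleton]
  have key : ∀ x : groupCohomology D.NRep 1, x = 0 := by
    intro x
    refine groupCohomology.H1_induction_on (A := D.NRep) (C := fun x => x = 0) x fun f => ?_
    rw [groupCohomology.H1π_eq_zero_iff]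
    have hf := (groupCohomology.mem_cocycles₁_iff f.1).1 f.2
    obtain ⟨m, hm⟩ := M3_key D H0 H1 (fun g => (f g : NN X Ω μ)) (fun g h => hf g h)
    exact ⟨m, funext fun g => hm g⟩
  exact ⟨fun a b => by rw [key a, key b]⟩

end Pool.Agent.LibMC2
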