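import Pool.Agent.LibMC2.M2
import Pool.Agent.LibMC2.M3
import Pool.Agent.LibMC2.M4
import Pool.Agent.LibBS2.CAN
import Pool.Agent.LibBS2.K5
import Pool.Agent.LibCod83.Orbits
import Pool.Agent.LibCod83.Main

/-!
M5. Vanishing of `H^k(G; N)` and `H^k(G; N / ℤ[X])`, `k ≤ 2`.
-/

set_option autoImplicit false

namespace Pool.Agent.LibMC2

open MeasureTheory CategoryTheory Pool.Agent.LibZIS Pool.Agent.LibCod83 Pool.Agent.LibBS2
open scoped ENNReal

universe v

variable {G : Type} [Group G] {E : Type v} [TopologicalSpace E] [PathConnectedSpace E]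
  [MulAction G E] [ContinuousConstSMul G E]

variable {X Ω : Type} [MulAction G X] [MeasurableSpace Ω] {μ : Measure Ω}
  [IsProbabilityMeasure μ]

/-- the gap -/
def Gap (G : Type) [Group G] (E : Type v) [TopologicalSpace E] [MulAction G E]
    [ContinuousConstSMul G E] : Prop := ∀ i, i ≤ 2 → ¬ Nontrivial (Hgy (lam G) E i)

omit [PathConnectedSpace E] in
theorem gap_of_not (h : ¬ ∃ i, i ≤ 2 ∧ Nontrivial (Hgy (lam G) E i)) : Gap G E :=
  fun i hi hn => h ⟨i, hi, hn⟩

/-- all orbits are infinite -/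
theorem infOrb (hst : ∀ x : X, Amenable (MulAction.stabilizer G x)) (H : Gap G E) :
    InfOrb G X := by
  intro x
  by_contra hfin
  rw [Set.not_infinite] at hfin
  have : Finite (MulAction.orbit G x) := hfin
  have hne : Nonempty (MulAction.orbit G x) := ⟨⟨x, MulAction.mem_orbit_self x⟩⟩
  refine H 0 (by norm_num) (main_finite (E := E) (MulAction.orbit G x) fun y => ?_)
  have h1 : MulAction.stabilizer G y = MulAction.stabilizer G (y : X) := by
    ext g
    rw [MulAction.mem_stabilizer_iff, MulAction.mem_stabilizer_iff]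
    exact Subtype.ext_iff
  rw [h1]
  exact hst _

theorem iota_inj (D : Ext G X Ω μ) : Function.Injective D.iota.hom :=
  fun _ _ hxy => iotaL_injective (congrArg Subtype.val hxy)

theorem prQ_surj (D : Ext G X Ω μ) : Function.Surjective D.prQ.hom :=
  Submodule.mkQ_surjective _

theorem prQ_iota (D : Ext G X Ω μ) (x : Rep.ofMulAction ℤ G X) :
    D.prQ.hom (D.iota.hom x) = 0 :=
  (Submodule.Quotient.mk_eq_zero _).2 ⟨x, rfl⟩

theorem prQ_ker (D : Ext G X Ω μ) (b : D.NRep) (hb : D.prQ.hom b = 0) :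
    ∃ x : Rep.ofMulAction ℤ G X, D.iota.hom x = b :=
  (Submodule.Quotient.mk_eq_zero _).1 hb

theorem coh_QRep (hfree : ∀ (g : G) (e : E), g • e = e → g = 1) (hE : H1Zero E)
    (H : Gap G E) (hst : ∀ x : X, Amenable (MulAction.stabilizer G x)) (D : Ext G X Ω μ)
    (k : ℕ) (hk : k ≤ 2) : ¬ Nontrivial (groupCohomology D.QRep k) := by
  have h0 := H 0 (by norm_num)
  have h1 := H 1 (by norm_num)
  have h2 := H 2 (by norm_num)
  have hperm : ∀ j, j ≤ 2 → ¬ Nontrivial (groupCohomology (Rep.ofMulAction ℤ G X) j) := by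
    intro j hj hn
    obtain ⟨i, hi, hn'⟩ := main_perm' (E := E) hfree hE X hst j hj hn
    exact H i (hi.trans hj) hn'
  have H0 : ∀ f : LX X Ω μ, (∀ g, D.coc.op g f = f) → f = 0 := fun f hf =>
    h0v (E := E) hst h0 D.coc f fun g x => congrArg (fun F : LX X Ω μ => F x) (hf g)
  interval_cases k
  · exact les_right D.iota D.prQ (iota_inj D) (prQ_surj D) (prQ_iota D) (prQ_ker D) 0
      (coh0_NRep D H0) (hperm 1 (by norm_num))
  · exact les_right D.iota D.prQ (iota_inj D) (prQ_surj D) (prQ_iota D) (prQ_ker D) 1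
      (coh1_NRep D H0 (h1v (E := E) hfree hst h0 h1)) (hperm 2 (by norm_num))
  · exact coh2_QRep D (h2v (E := E) hfree hE hst h0 h1 h2) fun c hc =>
      D.main_rel (infOrb hst H) (h1v (E := E) hfree hst h0 h1) hc

theorem coh_NRep (hfree : ∀ (g : G) (e : E), g • e = e → g = 1) (hE : H1Zero E)
    (H : Gap G E) (hst : ∀ x : X, Amenable (MulAction.stabilizer G x)) (D : Ext G X Ω μ)
    (k : ℕ) (hk : k ≤ 2) : ¬ Nontrivial (groupCohomology D.NRep k) := by
  refine les_mid D.iota D.prQ (iota_inj D) (prQ_surj D) (prQ_iota D) (prQ_ker D) k ?_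
    (coh_QRep hfree hE H hst D k hk)
  intro hn
  obtain ⟨i, hi, hn'⟩ := main_perm' (E := E) hfree hE X hst k hk hn
  exact H i (hi.trans hk) hn'

/-- duality -/
theorem not_nontrivial_homology {n : ℕ} (hG : IsPD G n) (M : Rep.{0} ℤ G) (k : ℕ) (hk : k ≤ n)
    (h : ¬ Nontrivial (groupCohomology M k)) : ¬ Nontrivial (groupHomology M (n - k)) := by
  intro h4
  obtain ⟨e⟩ := hG M k hk
  refine h ?_
  have e' : groupCohomology M k ≃ groupHomology M (n - k) := ((forget _).mapIso e).toEquiv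
  exact e'.nontrivial

/-- **Measured cycles of codimension at most two.** -/
theorem main_M (hfree : ∀ (g : G) (e : E), g • e = e → g = 1) (hE : H1Zero E) (n : ℕ)
    (hG : IsPD G n) (hst : ∀ x : X, Amenable (MulAction.stabilizer G x)) (D : Ext G X Ω μ)
    (k : ℕ) (hk : k ≤ 2) (hkn : k ≤ n)
    (hne : Nontrivial (groupHomology D.NRep (n - k)) ∨
      Nontrivial (groupHomology D.QRep (n - k))) :
    ∃ i, i ≤ 2 ∧ Nontrivial (Hgy (lam G) E i) := by
  by_contra hcon
  have H := gap_of_not hcon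
  rcases hne with h | h
  · exact not_nontrivial_homology hG _ k hkn (coh_NRep hfree hE H hst D k hk) h
  · exact not_nontrivial_homology hG _ k hkn (coh_QRep hfree hE H hst D k hk) h

end Pool.Agent.LibMC2
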